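import Mathlib
import Pool.Agent.H67.SG.Def

/-! # SD.Def : definitions for the part of MP_33a63d_co valid for every chromatic surplus

`C` is always the graph of the red edges, `Cᶜ` the blue graph, `T` a tree on `Fin n`; `dg C x S`, `nd C x S` = number of
neighbours resp. non-neighbours of `x` in `S` (see `H67.SG.Def`), `MJ G q c` also from there. -/

namespace H57.SD

open SimpleGraph Pool.Agent.H62.Decomp H67.SG

universe u v

/-- `C` contains `m K_2 + K_(m,…,m)` with `q` parts: the part with number `i` consists of `m` disjoint edges `a x`, `b x`,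
the other `q - 1` parts are sets of `m` vertices; different parts are completely joined -/
def HasM {W : Type u} (q m : ℕ) (C : SimpleGraph W) : Prop :=
  ∃ (i : Fin q) (a b : Fin m → W) (Z : Fin q → Finset W),
    Function.Injective a ∧ Function.Injective b ∧ (∀ x y, a x ≠ b y) ∧ (∀ x, C.Adj (a x) (b x)) ∧
    (∀ j, j ≠ i → (Z j).card = m) ∧
    (∀ j, j ≠ i → ∀ z ∈ Z j, ∀ x, C.Adj (a x) z ∧ C.Adj (b x) z) ∧
    ∀ j l, j ≠ i → l ≠ i → j ≠ l → ∀ y ∈ Z j, ∀ z ∈ Z l, C.Adj y z

/-- `C` contains a complete `(q+1)`-partite graph with parts `s, m, …, m` -/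
def HasS {W : Type u} (q m s : ℕ) (C : SimpleGraph W) : Prop :=
  ∃ (S : Finset W) (Z : Fin q → Finset W), S.card = s ∧ (∀ j, (Z j).card = m) ∧
    (∀ j, ∀ z ∈ Z j, ∀ x ∈ S, C.Adj x z) ∧ ∀ j l, j ≠ l → ∀ y ∈ Z j, ∀ z ∈ Z l, C.Adj y z

/-- the chromatic surplus: the least size of a colour class of a proper colouring with exactly `χ(G)` colours -/
noncomputable def surplus {V : Type u} (G : SimpleGraph V) : ℕ :=
  sInf {t : ℕ | ∃ (c : G.Coloring (Fin G.chromaticNumber.toNat)) (i : Fin G.chromaticNumber.toNat),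
    {x | c x = i}.ncard = t}

theorem HasM.comap {W : Type u} {W' : Type v} {q m : ℕ} {C : SimpleGraph W} (f : W' ↪ W)
    (h : HasM q m (C.comap f)) : HasM q m C := by
  classical
  obtain ⟨i, a, b, Z, ha, hb, hab, hadj, hc, h1, h2⟩ := h
  refine ⟨i, f ∘ a, f ∘ b, fun j => (Z j).map f, f.injective.comp ha, f.injective.comp hb,
    fun x y h => hab x y (f.injective h), fun x => hadj x, fun j hj => ?_, ?_, ?_⟩
  · rw [Finset.card_map]; exact hc j hj
  · intro j hj z hz x
    obtain ⟨w, hw, rfl⟩ := Finset.mem_map.mp hz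
    exact h1 j hj w hw x
  · intro j l hj hl hjl y hy z hz
    obtain ⟨w, hw, rfl⟩ := Finset.mem_map.mp hy
    obtain ⟨w', hw', rfl⟩ := Finset.mem_map.mp hz
    exact h2 j l hj hl hjl w hw w' hw'

theorem HasS.comap {W : Type u} {W' : Type v} {q m s : ℕ} {C : SimpleGraph W} (f : W' ↪ W)
    (h : HasS q m s (C.comap f)) : HasS q m s C := by
  classical
  obtain ⟨S, Z, hS, hc, h1, h2⟩ := h
  refine ⟨S.map f, fun j => (Z j).map f, by rw [Finset.card_map]; exact hS, fun j => ?_, ?_, ?_⟩
  · rw [Finset.card_map]; exact hc j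
  · intro j z hz x hx
    obtain ⟨w, hw, rfl⟩ := Finset.mem_map.mp hz
    obtain ⟨w', hw', rfl⟩ := Finset.mem_map.mp hx
    exact h1 j w hw w' hw'
  · intro j l hjl y hy z hz
    obtain ⟨w, hw, rfl⟩ := Finset.mem_map.mp hy
    obtain ⟨w', hw', rfl⟩ := Finset.mem_map.mp hz
    exact h2 j l hjl w hw w' hw'

/-- a copy of `T` in the complement of a pulled back graph gives one in the complement -/
theorem tree_comap {U : Type} {W : Type u} {W' : Type v} {T : SimpleGraph U} {C : SimpleGraph W} (f : W' ↪ W)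
    (h : T ⊑ (C.comap f)ᶜ) : T ⊑ Cᶜ := by
  obtain ⟨φ⟩ := h
  refine contained_of_map (fun x => f (φ x)) (fun x y hxy => φ.injective (f.injective hxy)) ?_
  intro x y hxy
  have h1 := φ.toHom.map_adj hxy
  rw [compl_adj] at h1 ⊢
  exact ⟨fun h => h1.1 (f.injective h), h1.2⟩

end H57.SD
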