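import Pool.Agent.H67.SG.TwoPart
import Pool.Agent.H57.SD.Def

/-! # SD.Asg : a vertex with few red neighbours in one part has few blue neighbours in the others (about 60 lines)

Put `s = t + 2 e + 1` and suppose `nd C x Q ≥ 2 s + 1`. Use `two_part` for `F = Cᶜ`, `P`, `Q`, `w = x`, with `e + 1` in place of
`e` and this `s`: `nd Cᶜ a P = dg C a P + 1 ≤ e + 1` for `a ∈ P` (`nd_compl_of_mem`), the same for `Q`;
`dg Cᶜ x Q = nd C x Q ≥ 2 s + 1` (`dg_compl_of_notMem`), `2 s + (e + 1) + 1 ≤ n - e ≤ |Q|` by `hn`;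
`dg Cᶜ x P = nd C x P = |P| - dg C x P ≥ n - e - t`, so `n ≤ dg Cᶜ x P + s`; `n + (e + 1) ≤ |P| + s`. So `T ⊑ Cᶜ`, contradiction. -/

namespace H57.SD

open SimpleGraph Pool.Agent.H62.Decomp H67.SG

theorem asg_one {n : ℕ} (T : SimpleGraph (Fin n)) (hT : T.IsTree) {W : Type} (C : SimpleGraph W)
    (hfree : ¬ T ⊑ Cᶜ) (P Q : Finset W) (hPQ : Disjoint P Q) (e t : ℕ) (hP : n ≤ P.card + e)
    (hQ : n ≤ Q.card + e) (hPi : ∀ x ∈ P, dg C x P ≤ e) (hQi : ∀ x ∈ Q, dg C x Q ≤ e)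
    (hn : 4 * (t + 3 * e + 3) ≤ n) (x : W) (hxP : x ∉ P) (hxQ : x ∉ Q) (hx : dg C x P < t) :
    nd C x Q ≤ 2 * (t + 2 * e + 1) := by
  classical
  by_contra hcon
  have hcon' : 2 * (t + 2 * e + 1) + 1 ≤ nd C x Q := by omega
  apply hfree
  have eP := dg_compl_of_notMem C x P hxP
  have eQ := dg_compl_of_notMem C x Q hxQ
  have hsum := dg_add_nd C x P
  refine two_part T hT Cᶜ P Q x (e + 1) (t + 2 * e + 1) hPQ hxP hxQ (by omega) (by omega) ?_ ?_ ?_ ?_ ?_ ?_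
  · intro a ha
    have h1 := nd_compl_of_mem C a P ha
    have h2 := hPi a ha
    omega
  · intro a ha
    have h1 := nd_compl_of_mem C a Q ha
    have h2 := hQi a ha
    omega
  · omega
  · omega
  · omega
  · omega

end H57.SD
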