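import Pool.Agent.H57.SD.Pop

/-! # SD.Bad : only boundedly many vertices have linear red degree to all parts (about 150 lines)

Choose `L` with `L τ^q ≥ 2 s + 2` and `L ≥ 1`; `popular q m s L (τ^q / 2)` gives `δ`, `n₀` (also `n₀ ≥ 1`). Suppose `|B| > L`, take `B' ⊆ B` with exactly `L`
elements. `X = Fintype.piFinset P`, `Y = {z ∈ X | s ≤ |{x ∈ B' | ∀ i, C.Adj x (z i)}|}`. Double counting:
`Σ_{z ∈ X} |{x ∈ B' | ∀ i, C.Adj x (z i)}| = Σ_{x ∈ B'} ∏_i dg C x (P i) ≥ L (τ n)^q`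
(the tuples `z ∈ X` with `C.Adj x (z i)` for all `i` are `piFinset (fun i => (P i).filter (C.Adj x))`). On the other hand the sum is at most
`s |X| + L |Y| ≤ s n^q + L |Y|`. So `L |Y| ≥ (L τ^q - s) n^q ≥ (L τ^q / 2) n^q`, `|Y| ≥ (τ^q / 2) n^q`: `popular` gives `HasS q m s C`. -/

namespace H57.SD

open SimpleGraph Pool.Agent.H62.Decomp H67.SG

open Classical in
/-- double counting -/
private theorem bad_count {q : ℕ} {W : Type} [Fintype W] (C : SimpleGraph W) (P : Fin q → Finset W)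
    (B : Finset W) :
    ∑ z ∈ Fintype.piFinset P, (B.filter (fun x => ∀ i, C.Adj x (z i))).card =
      ∑ x ∈ B, ∏ i, dg C x (P i) := by
  have h1 : ∀ x, ((Fintype.piFinset P).filter (fun z => ∀ i, C.Adj x (z i))).card =
      ∏ i, dg C x (P i) := by
    intro x
    have h2 : (Fintype.piFinset P).filter (fun z => ∀ i, C.Adj x (z i)) =
        Fintype.piFinset (fun i => (P i).filter (fun y => C.Adj x y)) := by
      ext z
      simp only [Finset.mem_filter, Fintype.mem_piFinset]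
      exact ⟨fun h i => ⟨h.1 i, h.2 i⟩, fun h => ⟨fun i => (h i).1, fun i => (h i).2⟩⟩
    rw [h2, Fintype.card_piFinset]
    refine Finset.prod_congr rfl fun i _ => ?_
    unfold dg
    congr
  simp only [← h1, Finset.card_filter]
  rw [Finset.sum_comm]

theorem bad_bound (q m s : ℕ) (hq : 1 ≤ q) (hm : 1 ≤ m) (τ : ℝ) (h0 : 0 < τ) :
    ∃ (L : ℕ) (δ : ℝ), 0 < δ ∧ ∃ n₀ : ℕ, ∀ n : ℕ, n₀ ≤ n → ∀ (W : Type) [Fintype W] (C : SimpleGraph W)
      (P : Fin q → Finset W),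
      n ≤ Fintype.card W → Fintype.card W ≤ (q + 1) * n → (∀ i, (P i).card ≤ n) →
      (∀ i j, i ≠ j → ∀ x ∈ P i, (nd C x (P j) : ℝ) ≤ δ * n) → ¬ HasS q m s C →
      ∀ B : Finset W, (∀ x ∈ B, ∀ i, τ * n ≤ (dg C x (P i) : ℝ)) → B.card ≤ L := by
  classical
  have hτq : 0 < τ ^ q := pow_pos h0 q
  obtain ⟨L, hL⟩ := exists_nat_ge ((2 * (s : ℝ) + 2) / τ ^ q)
  have hL1 : 2 * (s : ℝ) + 2 ≤ L * τ ^ q := by
    rwa [div_le_iff₀ hτq] at hL
  have hL0 : 0 < (L : ℝ) := by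
    by_contra h
    have h1 : (L : ℝ) = 0 := le_antisymm (not_lt.1 h) (Nat.cast_nonneg _)
    rw [h1, zero_mul] at hL1
    have : (0 : ℝ) ≤ s := Nat.cast_nonneg _
    linarith
  obtain ⟨δ, hδ, n₀, h⟩ := popular q m s L hq hm (τ ^ q / 2) (by positivity)
  refine ⟨L, δ, hδ, n₀, ?_⟩
  intro n hn W _ C P hW1 hW2 hP hnd hS B hB
  by_contra hBL
  obtain ⟨B', hB'B, hB'⟩ := Finset.exists_subset_card_eq (not_le.1 hBL).le
  let X : Finset (Fin q → W) := Fintype.piFinset P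
  let f : (Fin q → W) → ℕ := fun z => (B'.filter (fun x => ∀ i, C.Adj x (z i))).card
  let Y : Finset (Fin q → W) := X.filter (fun z => s ≤ f z)
  refine hS (h n hn W C P B' (Y : Set (Fin q → W)) hW1 hW2 hP hnd hB'.le ?_ ?_)
  · intro z hz
    have h1 := Finset.mem_filter.1 (Finset.mem_coe.1 hz)
    exact ⟨fun i => Fintype.mem_piFinset.1 h1.1 i, h1.2⟩
  · rw [Set.ncard_coe_finset]
    have h1 : ∑ z ∈ X, f z ≤ s * X.card + L * Y.card := by
      have h2 : ∀ z ∈ X, f z ≤ s + if s ≤ f z then L else 0 := by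
        intro z _
        by_cases hz : s ≤ f z
        · rw [if_pos hz]
          have h3 : f z ≤ B'.card := Finset.card_filter_le _ _
          omega
        · rw [if_neg hz]
          omega
      refine (Finset.sum_le_sum h2).trans (le_of_eq ?_)
      rw [Finset.sum_add_distrib, Finset.sum_const, smul_eq_mul, ← Finset.sum_filter,
        Finset.sum_const, smul_eq_mul, mul_comm s, mul_comm L]
    have h2 : ∑ z ∈ X, f z = ∑ x ∈ B', ∏ i, dg C x (P i) := bad_count C P B'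
    have h3 : (L : ℝ) * (τ * n) ^ q ≤ ((∑ x ∈ B', ∏ i, dg C x (P i) : ℕ) : ℝ) := by
      push_cast
      have h4 : ∀ x ∈ B', (τ * n) ^ q ≤ ∏ i, (dg C x (P i) : ℝ) := by
        intro x hx
        have h5 : ∏ _i : Fin q, (τ * (n : ℝ)) ≤ ∏ i, (dg C x (P i) : ℝ) :=
          Finset.prod_le_prod (fun i _ => by positivity) (fun i _ => hB x (hB'B hx) i)
        rwa [Finset.prod_const, Finset.card_univ, Fintype.card_fin] at h5
      have h5 := Finset.sum_le_sum h4
      rwa [Finset.sum_const, hB', nsmul_eq_mul] at h5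
    have h4 : (X.card : ℝ) ≤ (n : ℝ) ^ q := by
      have h5 : X.card = ∏ i, (P i).card := Fintype.card_piFinset P
      rw [h5]
      push_cast
      have h6 : ∏ i, ((P i).card : ℝ) ≤ ∏ _i : Fin q, (n : ℝ) :=
        Finset.prod_le_prod (fun i _ => Nat.cast_nonneg _) (fun i _ => by exact_mod_cast hP i)
      rwa [Finset.prod_const, Finset.card_univ, Fintype.card_fin] at h6
    have h5 : ((∑ z ∈ X, f z : ℕ) : ℝ) ≤ s * X.card + L * Y.card := by exact_mod_cast h1
    rw [h2] at h5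
    have h6 : (L : ℝ) * (τ * n) ^ q ≤ s * (n : ℝ) ^ q + L * Y.card := by
      have h7 : (s : ℝ) * X.card ≤ s * (n : ℝ) ^ q := mul_le_mul_of_nonneg_left h4 (Nat.cast_nonneg _)
      linarith
    rw [mul_pow] at h6
    have h7 : (0 : ℝ) ≤ (n : ℝ) ^ q := by positivity
    have h8 : (L : ℝ) * (τ ^ q / 2 * (n : ℝ) ^ q) ≤ L * Y.card := by
      have h9 : ((s : ℝ) + 1) * (n : ℝ) ^ q ≤ (L * τ ^ q / 2) * (n : ℝ) ^ q :=
        mul_le_mul_of_nonneg_right (by linarith) h7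
      nlinarith
    exact le_of_mul_le_mul_left h8 hL0

end H57.SD
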