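import Pool.Agent.H57.SD.Def

/-! # SD.ContM : G inside m K_2 + K_(m,…,m) (about 150 lines)

`m = card V`, `num : V ≃ Fin m`. `lam` from `MJ G q 1`; `HasM`: index `i`, `a`, `b`, `Z`. Let `σ` be the permutation of `Fin q` exchanging `0` and `i` (`q ≥ 1` because of `i`). A vertex `x` with `lam x = 0` (value `0`) which has a neighbour `x'` in its class (then exactly one, and `x` is the only neighbour of `x'` in the class) goes to
`a μ` if `num x < num x'` and to `b μ` otherwise, where `μ` is the smaller of `num x`, `num x'`; a vertex of class `0` without neighbour in the class goes to `a (num x)`; a vertex `x` with `lam x = j ≠ 0` goes to the element number `num x` of `Z (σ j)` (an enumeration `Fin m ≃ Z (σ j)`).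
The map is injective (the sets `{a x, b x}`, `Z j` are disjoint because `C` has no loops and they are completely joined) and maps edges to edges. -/

namespace H57.SD

open SimpleGraph Pool.Agent.H62.Decomp H67.SG

theorem cont_M {V : Type} [Fintype V] [Nonempty V] (G : SimpleGraph V) (q : ℕ) (hMJ : MJ G q 1) {W : Type}
    (C : SimpleGraph W) (h : HasM q (Fintype.card V) C) : G ⊑ C := by
  classical
  obtain ⟨lam, hlam⟩ := hMJ
  obtain ⟨i, a, b, Z, ha, hb, hab, hadj, hc, h1, h2⟩ := h
  have num : V ≃ Fin (Fintype.card V) := Fintype.equivFin V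
  obtain ⟨z, hz⟩ : ∃ z : Fin q, z.val = 0 := ⟨⟨0, i.pos⟩, rfl⟩
  obtain ⟨σ, hσ⟩ : ∃ σ : Equiv.Perm (Fin q), σ z = i := ⟨Equiv.swap z i, Equiv.swap_apply_left z i⟩
  have hen : ∀ j : Fin q, j ≠ i → ∃ e : Fin (Fintype.card V) → W, Function.Injective e ∧ ∀ x, e x ∈ Z j := by
    intro j hj
    have e := (Z j).equivFinOfCardEq (hc j hj)
    exact ⟨fun x => (e.symm x : W), fun x y hxy => e.symm.injective (Subtype.ext hxy), fun x => (e.symm x).2⟩
  have : Inhabited W := ⟨a (num (Classical.arbitrary V))⟩
  choose! e he he' using hen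
  have hne : ∀ x, lam x ≠ z → σ (lam x) ≠ i := fun x hx h => hx (σ.injective (h.trans hσ.symm))
  -- partner
  have huniq : ∀ x y y', lam y = lam x → G.Adj x y → lam y' = lam x → G.Adj x y' → y' = y := by
    intro x y y' h3 h4 h5 h6
    exact (hlam x y h3.symm h4).2 y' h5 h6
  have hzero : ∀ x y, lam x = lam y → G.Adj x y → lam x = z := by
    intro x y h3 h4
    have h5 := (hlam x y h3 h4).1
    apply Fin.ext
    omega
  obtain ⟨f, hf⟩ : ∃ f : V → W, ∀ x, (lam x = z → (∀ y, lam y = lam x → G.Adj x y → num y < num x → f x = b (num y)) ∧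
      ((¬ ∃ y, lam y = lam x ∧ G.Adj x y ∧ num y < num x) → f x = a (num x))) ∧
      (lam x ≠ z → f x = e (σ (lam x)) (num x)) := by
    have : ∀ x, ∃ w : W, (lam x = z → (∀ y, lam y = lam x → G.Adj x y → num y < num x → w = b (num y)) ∧
      ((¬ ∃ y, lam y = lam x ∧ G.Adj x y ∧ num y < num x) → w = a (num x))) ∧
      (lam x ≠ z → w = e (σ (lam x)) (num x)) := by
      intro x
      by_cases hx : lam x = z
      · by_cases hy : ∃ y, lam y = lam x ∧ G.Adj x y ∧ num y < num x
        · obtain ⟨y, hy1, hy2, hy3⟩ := hy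
          refine ⟨b (num y), fun _ => ⟨fun y' h3 h4 _ => ?_, fun hcon => absurd ⟨y, hy1, hy2, hy3⟩ hcon⟩, fun h => absurd hx h⟩
          rw [huniq x y y' hy1 hy2 h3 h4]
        · exact ⟨a (num x), fun _ => ⟨fun y h3 h4 h5 => absurd ⟨y, h3, h4, h5⟩ hy, fun _ => rfl⟩, fun h => absurd hx h⟩
      · exact ⟨e (σ (lam x)) (num x), fun h => absurd h hx, fun _ => rfl⟩
    choose f hf using this
    exact ⟨f, hf⟩
  -- the form of the values in class z
  have hform : ∀ x, lam x = z → (f x = a (num x)) ∨
      ∃ y, lam y = lam x ∧ G.Adj x y ∧ num y < num x ∧ f x = b (num y) := by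
    intro x hx
    by_cases hy : ∃ y, lam y = lam x ∧ G.Adj x y ∧ num y < num x
    · obtain ⟨y, hy1, hy2, hy3⟩ := hy
      exact Or.inr ⟨y, hy1, hy2, hy3, ((hf x).1 hx).1 y hy1 hy2 hy3⟩
    · exact Or.inl (((hf x).1 hx).2 hy)
  have hfe : ∀ x, lam x ≠ z → f x ∈ Z (σ (lam x)) := by
    intro x hx
    rw [(hf x).2 hx]
    exact he' _ (hne x hx) _
  have hcross : ∀ x y, lam x = z → lam y ≠ z → C.Adj (f x) (f y) := by
    intro x y hx hy
    have h3 := hfe y hy
    rcases hform x hx with h4 | ⟨y', _, _, _, h4⟩
    · rw [h4]; exact (h1 _ (hne y hy) _ h3 _).1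
    · rw [h4]; exact (h1 _ (hne y hy) _ h3 _).2
  have hcross2 : ∀ x y, lam x ≠ z → lam y ≠ z → lam x ≠ lam y → C.Adj (f x) (f y) := by
    intro x y hx hy hxy
    exact h2 _ _ (hne x hx) (hne y hy) (fun h => hxy (σ.injective h)) _ (hfe x hx) _ (hfe y hy)
  have hpair : ∀ x y, lam x = lam y → G.Adj x y → num x < num y → C.Adj (f x) (f y) := by
    intro x y h3 h4 h5
    have hx := hzero x y h3 h4
    have hy : lam y = z := h3 ▸ hx
    have h6 : f y = b (num x) := ((hf y).1 hy).1 x h3 h4.symm h5
    have h7 : f x = a (num x) := by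
      apply ((hf x).1 hx).2
      rintro ⟨y', h8, h9, h10⟩
      have := huniq x y y' h3.symm h4 h8 h9
      rw [this] at h10
      exact absurd h10 (not_lt.mpr h5.le)
    rw [h6, h7]
    exact hadj _
  refine contained_of_map f ?_ ?_
  · intro x y hxy
    by_cases hx : lam x = z
    · by_cases hy : lam y = z
      · rcases hform x hx with h4 | ⟨x', h31, h32, h33, h4⟩
        · rcases hform y hy with h5 | ⟨y', _, _, _, h5⟩
          · rw [h4, h5] at hxy
            exact num.injective (ha hxy)
          · rw [h4, h5] at hxy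
            exact absurd hxy (hab _ _)
        · rcases hform y hy with h5 | ⟨y', h61, h62, h63, h5⟩
          · rw [h4, h5] at hxy
            exact absurd hxy.symm (hab _ _)
          · rw [h4, h5] at hxy
            have h7 : x' = y' := num.injective (hb hxy)
            subst h7
            exact (huniq x' y x h61.symm h62.symm h31.symm h32.symm)
      · have := hcross x y hx hy
        rw [hxy] at this
        exact absurd this (C.loopless.irrefl _)
    · by_cases hy : lam y = z
      · have := hcross y x hy hx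
        rw [hxy] at this
        exact absurd this (C.loopless.irrefl _)
      · by_cases hxy' : lam x = lam y
        · rw [(hf x).2 hx, (hf y).2 hy, hxy'] at hxy
          exact num.injective (he _ (hne y hy) hxy)
        · have := hcross2 x y hx hy hxy'
          rw [hxy] at this
          exact absurd this (C.loopless.irrefl _)
  · intro x y hxy
    by_cases h3 : lam x = lam y
    · rcases lt_trichotomy (num x) (num y) with h4 | h4 | h4
      · exact hpair x y h3 hxy h4
      · exact absurd (num.injective h4) hxy.ne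
      · exact (hpair y x h3.symm hxy.symm h4).symm
    · by_cases hx : lam x = z
      · exact hcross x y hx (fun h => h3 (hx.trans h.symm))
      · by_cases hy : lam y = z
        · exact (hcross y x hy hx).symm
        · exact hcross2 x y hx hy h3

end H57.SD
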