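import Pool.Agent.H57.SD.Def

/-! # SD.ContS : G inside K_(s,m,…,m) (about 80 lines)

`f` colouring with `q + 1` colours, class `i` of size `≤ s`, `m = card V`, `num : V ≃ Fin m`. The class `i` goes injectively to `S`, the other `q` colours correspond to the `Z j` (`Fin.succAbove i` / a bijection of `{j // j ≠ i}` with `Fin q`), `x ↦` element number `num x` of that `Z j`. Injective: `S` and the `Z j` are pairwise disjoint
(completely joined, no loops). -/

namespace H57.SD

open SimpleGraph Pool.Agent.H62.Decomp H67.SG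

theorem cont_S {V : Type} [Fintype V] [Nonempty V] (G : SimpleGraph V) (q s : ℕ)
    (f : G.Coloring (Fin (q + 1))) (i : Fin (q + 1)) (hf : {x | f x = i}.ncard ≤ s) {W : Type}
    (C : SimpleGraph W) (h : HasS q (Fintype.card V) s C) : G ⊑ C := by
  classical
  obtain ⟨S, Z, hS, hZ, h1, h2⟩ := h
  -- the class `i` goes to `S`
  have hc : Fintype.card {x : V // f x = i} ≤ Fintype.card S := by
    rw [Fintype.card_coe, hS]
    refine le_trans (le_of_eq ?_) hf
    rw [← Nat.card_coe_set_eq, Nat.card_eq_fintype_card]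
    rfl
  obtain ⟨g⟩ := Function.Embedding.nonempty_of_card_le hc
  have he : ∀ j : Fin q, Nonempty (V ↪ Z j) := fun j =>
    Function.Embedding.nonempty_of_card_le (by rw [Fintype.card_coe, hZ j])
  obtain ⟨e⟩ : Nonempty (∀ j : Fin q, V ↪ Z j) := Classical.nonempty_pi.2 he
  have hφ : ∀ x : V, ∃ w : W, (∀ hx : f x = i, w = g ⟨x, hx⟩) ∧
      ∀ j, f x = i.succAbove j → w = e j x := by
    intro x
    rcases Fin.eq_self_or_eq_succAbove i (f x) with hx | ⟨j, hx⟩
    · exact ⟨g ⟨x, hx⟩, fun _ => rfl, fun j hj => absurd (hj.symm.trans hx) (Fin.succAbove_ne i j)⟩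
    · refine ⟨e j x, fun hx' => absurd (hx.symm.trans hx') (Fin.succAbove_ne i j), fun j' hj' => ?_⟩
      have : j = j' := Fin.succAbove_right_injective (hx.symm.trans hj')
      rw [this]
  choose φ hφ1 hφ2 using hφ
  have hmS : ∀ x, f x = i → φ x ∈ S := fun x hx => by
    rw [hφ1 x hx]
    exact (g ⟨x, hx⟩).2
  have hmZ : ∀ x j, f x = i.succAbove j → φ x ∈ Z j := fun x j hx => by
    rw [hφ2 x j hx]
    exact (e j x).2
  have dSZ : ∀ j w, w ∈ S → w ∈ Z j → False := fun j w hw hw' =>
    (h1 j w hw' w hw).ne rfl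
  have dZZ : ∀ j l w, j ≠ l → w ∈ Z j → w ∈ Z l → False := fun j l w hjl hw hw' =>
    (h2 j l hjl w hw w hw').ne rfl
  refine contained_of_map φ ?_ ?_
  · intro x y hxy
    rcases Fin.eq_self_or_eq_succAbove i (f x) with hx | ⟨j, hx⟩ <;>
      rcases Fin.eq_self_or_eq_succAbove i (f y) with hy | ⟨l, hy⟩
    · rw [hφ1 x hx, hφ1 y hy] at hxy
      have := g.injective (Subtype.ext hxy)
      exact congrArg Subtype.val this
    · exact (dSZ l (φ x) (hmS x hx) (hxy ▸ hmZ y l hy)).elim
    · exact (dSZ j (φ x) (hxy ▸ hmS y hy) (hmZ x j hx)).elim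
    · by_cases hjl : j = l
      · subst hjl
        rw [hφ2 x j hx, hφ2 y j hy] at hxy
        exact (e j).injective (Subtype.ext hxy)
      · exact (dZZ j l (φ x) hjl (hmZ x j hx) (hxy ▸ hmZ y l hy)).elim
  · intro x y hxy
    have hne : f x ≠ f y := f.valid hxy
    rcases Fin.eq_self_or_eq_succAbove i (f x) with hx | ⟨j, hx⟩ <;>
      rcases Fin.eq_self_or_eq_succAbove i (f y) with hy | ⟨l, hy⟩
    · exact absurd (hx.trans hy.symm) hne
    · exact h1 l _ (hmZ y l hy) _ (hmS x hx)
    · exact (h1 j _ (hmZ x j hx) _ (hmS y hy)).symm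
    · refine h2 j l ?_ _ (hmZ x j hx) _ (hmZ y l hy)
      rintro rfl
      exact hne (hx.trans hy.symm)

end H57.SD
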