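import Pool.Agent.H57.SD.Def

/-! # SD.Cover : the red edges inside a class have a bounded cover (about 150 lines)

Take a maximal family of pairwise disjoint red edges `a x`, `b x` (`x < r`) inside `V` with `r ≤ m` (for instance the largest `r ≤ m` such that there are
`a b : Fin r → W` with values in `V`, injective, `a x ≠ b y`, `C.Adj (a x) (b x)`). If `r < m`, let `X` be the set of the `2 r` vertices: a red edge inside `V \ X` would extend the family.
If `r = m`: choose `Z j ⊆ P j` (`j ≠ i`) with `m` elements one after the other (induction over a finset of indices not containing `i`), all elements joined in `C` to the `2 m` vertices `a x`, `b x` and to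
the elements of the sets `Z l` already chosen: the `2 m` vertices have at most `g` non-neighbours in `P j` (`hV`), the at most `q m` elements of the `Z l ⊆ P l` have at most `e` (`hcr`), so at least
`|P j| - 2 m g - q m e ≥ n - e - 2 m g - q m e ≥ m` elements are available. This is `HasM q m C`, excluded. -/

namespace H57.SD

open SimpleGraph Pool.Agent.H62.Decomp H67.SG

/-- `r` pairwise disjoint red edges inside `V` -/
private def Fam {W : Type} (C : SimpleGraph W) (V : Finset W) (r : ℕ) : Prop :=
  ∃ a b : Fin r → W, Function.Injective a ∧ Function.Injective b ∧ (∀ x y, a x ≠ b y) ∧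
    (∀ x, C.Adj (a x) (b x)) ∧ (∀ x, a x ∈ V) ∧ (∀ x, b x ∈ V)

/-- a maximal family which is too short gives the cover -/
private lemma cover_aux {W : Type} (C : SimpleGraph W) (V : Finset W) (m r : ℕ) (hr : r < m)
    (hf : Fam C V r) (hnf : ¬ Fam C V (r + 1)) :
    ∃ X : Finset W, X ⊆ V ∧ X.card ≤ 2 * m ∧ ∀ x ∈ V, x ∉ X → ∀ y ∈ V, y ∉ X → ¬ C.Adj x y := by
  classical
  obtain ⟨a, b, ha, hb, hab, hadj, haV, hbV⟩ := hf
  refine ⟨Finset.univ.image a ∪ Finset.univ.image b, ?_, ?_, ?_⟩
  · intro z hz
    rw [Finset.mem_union, Finset.mem_image, Finset.mem_image] at hz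
    rcases hz with ⟨x, _, rfl⟩ | ⟨x, _, rfl⟩
    · exact haV x
    · exact hbV x
  · have h1 := Finset.card_union_le (Finset.univ.image a) (Finset.univ.image b)
    have h2 : (Finset.univ.image a).card ≤ r := by
      have := Finset.card_image_le (s := Finset.univ) (f := a)
      simpa using this
    have h3 : (Finset.univ.image b).card ≤ r := by
      have := Finset.card_image_le (s := Finset.univ) (f := b)
      simpa using this
    omega
  · intro x hx hxX y hy hyX hxy
    apply hnf
    have hxa : ∀ z, a z ≠ x := fun z h => hxX (Finset.mem_union_left _ (Finset.mem_image.2 ⟨z, Finset.mem_univ _, h⟩))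
    have hxb : ∀ z, b z ≠ x := fun z h => hxX (Finset.mem_union_right _ (Finset.mem_image.2 ⟨z, Finset.mem_univ _, h⟩))
    have hya : ∀ z, a z ≠ y := fun z h => hyX (Finset.mem_union_left _ (Finset.mem_image.2 ⟨z, Finset.mem_univ _, h⟩))
    have hyb : ∀ z, b z ≠ y := fun z h => hyX (Finset.mem_union_right _ (Finset.mem_image.2 ⟨z, Finset.mem_univ _, h⟩))
    refine ⟨Fin.cons x a, Fin.cons y b, ?_, ?_, ?_, ?_, ?_, ?_⟩
    · rw [Fin.cons_injective_iff]
      exact ⟨fun ⟨z, hz⟩ => hxa z hz, ha⟩
    · rw [Fin.cons_injective_iff]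
      exact ⟨fun ⟨z, hz⟩ => hyb z hz, hb⟩
    · intro u v
      refine Fin.cases ?_ (fun u => ?_) u
      · refine Fin.cases ?_ (fun v => ?_) v
        · simpa using hxy.ne
        · simpa using (hxb v).symm
      · refine Fin.cases ?_ (fun v => ?_) v
        · simpa using hya u
        · simpa using hab u v
    · intro u
      refine Fin.cases ?_ (fun u => ?_) u
      · simpa using hxy
      · simpa using hadj u
    · intro u
      refine Fin.cases ?_ (fun u => ?_) u
      · simpa using hx
      · simpa using haV u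
    · intro u
      refine Fin.cases ?_ (fun u => ?_) u
      · simpa using hy
      · simpa using hbV u

/-- the step of the choice of the sets `Z j` -/
private lemma choose_aux {W : Type} (C : SimpleGraph W) (q m n e g : ℕ) (P : Fin q → Finset W) (i : Fin q)
    (V : Finset W) (hsz : ∀ j, n ≤ (P j).card + e)
    (hcr : ∀ j l, j ≠ l → ∀ x ∈ P j, nd C x (P l) ≤ e)
    (hV : ∀ y ∈ V, ∀ j, j ≠ i → nd C y (P j) ≤ g) (hn : 2 * m * g + q * m * e + e + m ≤ n)
    (a b : Fin m → W) (haV : ∀ x, a x ∈ V) (hbV : ∀ x, b x ∈ V) (J : Finset (Fin q)) :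
    i ∉ J → ∃ Z : Fin q → Finset W, (∀ j ∈ J, Z j ⊆ P j ∧ (Z j).card = m ∧
      ∀ z ∈ Z j, ∀ x, C.Adj (a x) z ∧ C.Adj (b x) z) ∧
      ∀ j ∈ J, ∀ l ∈ J, j ≠ l → ∀ y ∈ Z j, ∀ z ∈ Z l, C.Adj y z := by
  classical
  refine Finset.induction_on J ?_ ?_
  · intro _
    exact ⟨fun _ => ∅, by simp, by simp⟩
  · intro j J hjJ ih hi
    rw [Finset.mem_insert, not_or] at hi
    obtain ⟨hij, hiJ⟩ := hi
    have hji : j ≠ i := fun h => hij h.symm
    obtain ⟨Z, hZ1, hZ2⟩ := ih hiJ
    let A : Finset W := Finset.univ.biUnion (fun x => (P j).filter (fun y => ¬ C.Adj (a x) y))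
    let B : Finset W := Finset.univ.biUnion (fun x => (P j).filter (fun y => ¬ C.Adj (b x) y))
    let D : Finset W := J.biUnion (fun l => (Z l).biUnion (fun z => (P j).filter (fun y => ¬ C.Adj z y)))
    have hA : A.card ≤ m * g := by
      calc A.card ≤ ∑ x : Fin m, ((P j).filter (fun y => ¬ C.Adj (a x) y)).card := Finset.card_biUnion_le
        _ ≤ ∑ x : Fin m, g := Finset.sum_le_sum (fun x _ => hV (a x) (haV x) j hji)
        _ = m * g := by simp
    have hB : B.card ≤ m * g := by
      calc B.card ≤ ∑ x : Fin m, ((P j).filter (fun y => ¬ C.Adj (b x) y)).card := Finset.card_biUnion_le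
        _ ≤ ∑ x : Fin m, g := Finset.sum_le_sum (fun x _ => hV (b x) (hbV x) j hji)
        _ = m * g := by simp
    have hD : D.card ≤ q * m * e := by
      calc D.card ≤ ∑ l ∈ J, ((Z l).biUnion (fun z => (P j).filter (fun y => ¬ C.Adj z y))).card :=
            Finset.card_biUnion_le
        _ ≤ ∑ l ∈ J, m * e := by
            apply Finset.sum_le_sum
            intro l hl
            have hlj : l ≠ j := fun h => hjJ (h ▸ hl)
            calc ((Z l).biUnion (fun z => (P j).filter (fun y => ¬ C.Adj z y))).card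
                ≤ ∑ z ∈ Z l, ((P j).filter (fun y => ¬ C.Adj z y)).card := Finset.card_biUnion_le
              _ ≤ ∑ z ∈ Z l, e := Finset.sum_le_sum (fun z hz => hcr l j hlj z ((hZ1 l hl).1 hz))
              _ = m * e := by rw [Finset.sum_const, smul_eq_mul, (hZ1 l hl).2.1]
        _ = J.card * (m * e) := by rw [Finset.sum_const, smul_eq_mul]
        _ ≤ q * (m * e) := by
            apply Nat.mul_le_mul_right
            have := Finset.card_le_univ J
            simpa using this
        _ = q * m * e := by ring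
    have hbad : (A ∪ (B ∪ D)).card ≤ 2 * m * g + q * m * e := by
      have h1 := Finset.card_union_le A (B ∪ D)
      have h2 := Finset.card_union_le B D
      have h3 : 2 * m * g = m * g + m * g := by ring
      omega
    have hgood : m ≤ ((P j) \ (A ∪ (B ∪ D))).card := by
      have h1 := Finset.le_card_sdiff (A ∪ (B ∪ D)) (P j)
      have h2 := hsz j
      omega
    obtain ⟨S, hS, hSc⟩ := Finset.exists_subset_card_eq hgood
    have hSP : ∀ y ∈ S, y ∈ P j := fun y hy => (Finset.mem_sdiff.1 (hS hy)).1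
    have hSA : ∀ y ∈ S, ∀ x, C.Adj (a x) y := by
      intro y hy x
      by_contra h
      exact (Finset.mem_sdiff.1 (hS hy)).2 (Finset.mem_union_left _ (Finset.mem_biUnion.2
        ⟨x, Finset.mem_univ _, Finset.mem_filter.2 ⟨hSP y hy, h⟩⟩))
    have hSB : ∀ y ∈ S, ∀ x, C.Adj (b x) y := by
      intro y hy x
      by_contra h
      exact (Finset.mem_sdiff.1 (hS hy)).2 (Finset.mem_union_right _ (Finset.mem_union_left _
        (Finset.mem_biUnion.2 ⟨x, Finset.mem_univ _, Finset.mem_filter.2 ⟨hSP y hy, h⟩⟩)))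
    have hSD : ∀ y ∈ S, ∀ l ∈ J, ∀ z ∈ Z l, C.Adj z y := by
      intro y hy l hl z hz
      by_contra h
      exact (Finset.mem_sdiff.1 (hS hy)).2 (Finset.mem_union_right _ (Finset.mem_union_right _
        (Finset.mem_biUnion.2 ⟨l, hl, Finset.mem_biUnion.2 ⟨z, hz,
          Finset.mem_filter.2 ⟨hSP y hy, h⟩⟩⟩)))
    have hupd : ∀ l ∈ J, Function.update Z j S l = Z l := by
      intro l hl
      have hlj : l ≠ j := fun h => hjJ (h ▸ hl)
      exact Function.update_of_ne hlj S Z
    refine ⟨Function.update Z j S, ?_, ?_⟩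
    · intro l hl
      rw [Finset.mem_insert] at hl
      rcases hl with rfl | hl
      · rw [Function.update_self]
        exact ⟨hSP, hSc, fun z hz x => ⟨hSA z hz x, hSB z hz x⟩⟩
      · rw [hupd l hl]
        exact hZ1 l hl
    · intro l hl k hk hlk y hy z hz
      rw [Finset.mem_insert] at hl hk
      rcases hl with rfl | hl
      · rcases hk with rfl | hk
        · exact absurd rfl hlk
        · rw [Function.update_self] at hy
          rw [hupd k hk] at hz
          exact (hSD y hy k hk z hz).symm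
      · rcases hk with rfl | hk
        · rw [Function.update_self] at hz
          rw [hupd l hl] at hy
          exact hSD z hz l hl y hy
        · rw [hupd l hl] at hy
          rw [hupd k hk] at hz
          exact hZ2 l hl k hk hlk y hy z hz

theorem cover_of_noM {W : Type} (C : SimpleGraph W) (q m n e g : ℕ) (P : Fin q → Finset W) (i : Fin q)
    (V : Finset W) (hsz : ∀ j, n ≤ (P j).card + e)
    (hcr : ∀ j l, j ≠ l → ∀ x ∈ P j, nd C x (P l) ≤ e)
    (hV : ∀ y ∈ V, ∀ j, j ≠ i → nd C y (P j) ≤ g) (hn : 2 * m * g + q * m * e + e + m ≤ n)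
    (hM : ¬ HasM q m C) :
    ∃ X : Finset W, X ⊆ V ∧ X.card ≤ 2 * m ∧ ∀ x ∈ V, x ∉ X → ∀ y ∈ V, y ∉ X → ¬ C.Adj x y := by
  classical
  have h0 : Fam C V 0 := ⟨Fin.elim0, Fin.elim0, fun x => x.elim0, fun x => x.elim0, fun x => x.elim0,
    fun x => x.elim0, fun x => x.elim0, fun x => x.elim0⟩
  have hm : ¬ Fam C V m := by
    rintro ⟨a, b, ha, hb, hab, hadj, haV, hbV⟩
    obtain ⟨Z, hZ1, hZ2⟩ := choose_aux C q m n e g P i V hsz hcr hV hn a b haV hbV
      (Finset.univ.erase i) (Finset.notMem_erase i _)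
    have hmem : ∀ j, j ≠ i → j ∈ Finset.univ.erase i := fun j hj =>
      Finset.mem_erase.2 ⟨hj, Finset.mem_univ _⟩
    exact hM ⟨i, a, b, Z, ha, hb, hab, hadj, fun j hj => (hZ1 j (hmem j hj)).2.1,
      fun j hj => (hZ1 j (hmem j hj)).2.2, fun j l hj hl hjl => hZ2 j (hmem j hj) l (hmem l hl) hjl⟩
  have hex : ∃ r, ¬ Fam C V r := ⟨m, hm⟩
  have hr := Nat.find_spec hex
  have hrm : Nat.find hex ≤ m := Nat.find_min' hex hm
  rcases Nat.eq_zero_or_pos (Nat.find hex) with h | h
  · rw [h] at hr
    exact absurd h0 hr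
  · obtain ⟨r, hr'⟩ : ∃ r, Nat.find hex = r + 1 := ⟨Nat.find hex - 1, by omega⟩
    have hfr : Fam C V r := by
      by_contra hc
      have := Nat.find_min' hex hc
      omega
    rw [hr'] at hr
    exact cover_aux C V m r (by omega) hfr hr

end H57.SD
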