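import Pool.Agent.H57.SD.LowInd

/-! # SD.Ext : blue cliques and extended blue cliques contain all trees (about 150 lines)

`emb_clique`: any injection `Fin n → R` works (different vertices of `R` are not adjacent in `C`, so adjacent in `Cᶜ`).
`emb_ext`: `J` from `low_indep` with `|J| = d = |F|`; `N` = set of all neighbours of elements of `J`: `|N| ≤ 2 d ≤ |Z|`, `N` is disjoint from `J` (`J` is independent). Map `J` bijectively to `F`, `N` injectively to `Z ⊆ R`, and the other
`n - d - |N|` vertices injectively to `R` minus the image of `N` (`|R| - |N| ≥ n - d - |N|`). The map is injective (`R`, `F` disjoint). An edge of `T` is either between `J` and `N` (image in `F` and `Z`, blue by `hZ`) or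
between two vertices outside `J` (both images in `R`). -/

namespace H57.SD

open SimpleGraph Pool.Agent.H62.Decomp H67.SG

private theorem Ext_inj {α W : Type} (w : W) (A : Finset α) (B : Finset W) (h : A.card ≤ B.card) :
    ∃ g : α → W, (∀ x ∈ A, g x ∈ B) ∧ ∀ x ∈ A, ∀ y ∈ A, g x = g y → x = y := by
  classical
  have e : Nonempty ({x // x ∈ A} ↪ {y // y ∈ B}) :=
    Function.Embedding.nonempty_of_card_le (by simpa using h)
  obtain ⟨f⟩ := e
  refine ⟨fun x => if hx : x ∈ A then (f ⟨x, hx⟩ : W) else w, fun x hx => ?_,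
    fun x hx y hy hxy => ?_⟩
  · simp only [hx, dif_pos]
    exact (f ⟨x, hx⟩).2
  · simp only [hx, hy, dif_pos] at hxy
    have := f.injective (Subtype.ext hxy)
    simpa using this

theorem emb_clique {n : ℕ} (T : SimpleGraph (Fin n)) {W : Type} (C : SimpleGraph W) (R : Finset W)
    (hR : ∀ x ∈ R, ∀ y ∈ R, ¬ C.Adj x y) (h : n ≤ R.card) : T ⊑ Cᶜ := by
  classical
  rcases Nat.eq_zero_or_pos n with rfl | hn
  · exact contained_of_map (fun x => x.elim0) (fun x => x.elim0) (fun x => x.elim0)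
  have hR0 : R.Nonempty := Finset.card_pos.1 (by omega)
  obtain ⟨w, hw⟩ := hR0
  obtain ⟨g, hg1, hg2⟩ := Ext_inj w (Finset.univ : Finset (Fin n)) R (by simpa using h)
  have hinj : Function.Injective g := fun x y hxy => hg2 x (Finset.mem_univ _) y (Finset.mem_univ _) hxy
  refine contained_of_map g hinj fun x y hxy => ?_
  rw [compl_adj]
  exact ⟨fun h => hxy.ne (hinj h), hR _ (hg1 x (Finset.mem_univ _)) _ (hg1 y (Finset.mem_univ _))⟩

theorem emb_ext {n : ℕ} (T : SimpleGraph (Fin n)) (hT : T.IsTree) {W : Type} (C : SimpleGraph W)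
    (R F Z : Finset W) (d : ℕ) (hRF : Disjoint R F) (hF : F.card = d) (hd : 6 * d ≤ n)
    (hR : ∀ x ∈ R, ∀ y ∈ R, ¬ C.Adj x y) (h : n ≤ R.card + d) (hZR : Z ⊆ R) (hZc : 2 * d ≤ Z.card)
    (hZ : ∀ z ∈ Z, ∀ x ∈ F, ¬ C.Adj x z) : T ⊑ Cᶜ := by
  classical
  have hn : 0 < n := by
    obtain ⟨v⟩ := hT.connected.nonempty
    exact lt_of_le_of_lt (Nat.zero_le _) v.2
  have hR0 : R.Nonempty := Finset.card_pos.1 (by omega)
  obtain ⟨w, hw⟩ := hR0
  obtain ⟨J, hJc, hJ2, hJi⟩ := low_indep T hT d hd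
  set N : Finset (Fin n) := J.biUnion (fun x => Finset.univ.filter (fun y => T.Adj x y)) with hN
  have memN : ∀ y, y ∈ N ↔ ∃ x ∈ J, T.Adj x y := by
    intro y
    simp [hN]
  have hNc : N.card ≤ 2 * d := by
    calc N.card ≤ ∑ x ∈ J, (Finset.univ.filter (fun y => T.Adj x y)).card := Finset.card_biUnion_le
      _ ≤ ∑ _x ∈ J, 2 := Finset.sum_le_sum fun x hx => by
          have h1 := hJ2 x hx
          unfold deg dg at h1
          exact le_trans (le_of_eq (by congr 1)) h1
      _ = 2 * d := by rw [Finset.sum_const, hJc, smul_eq_mul, mul_comm]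
  have hJN : ∀ x ∈ J, x ∉ N := by
    intro x hx hxN
    obtain ⟨y, hy, hyx⟩ := (memN x).1 hxN
    exact hJi y hy x hx hyx
  obtain ⟨g1, a1, b1⟩ := Ext_inj w J F (by omega)
  obtain ⟨g2, a2, b2⟩ := Ext_inj w N Z (by omega)
  have hZ'c : (N.image g2).card = N.card := Finset.card_image_of_injOn (fun x hx y hy h =>
    b2 x hx y hy h)
  have hZ'R : N.image g2 ⊆ R := by
    intro z hz
    obtain ⟨x, hx, rfl⟩ := Finset.mem_image.1 hz
    exact hZR (a2 x hx)
  have hrest : (Finset.univ \ (J ∪ N)).card ≤ (R \ N.image g2).card := by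
    have e1 : (J ∪ N).card = J.card + N.card :=
      Finset.card_union_of_disjoint (Finset.disjoint_left.2 hJN)
    have e2 := Finset.card_sdiff_add_card_eq_card (Finset.subset_univ (J ∪ N))
    have e3 := Finset.card_sdiff_add_card_eq_card hZ'R
    rw [Finset.card_univ, Fintype.card_fin] at e2
    omega
  obtain ⟨g3, a3, b3⟩ := Ext_inj w (Finset.univ \ (J ∪ N)) (R \ N.image g2) hrest
  obtain ⟨φ, hφ⟩ : ∃ φ : Fin n → W, φ = fun x => if x ∈ J then g1 x else if x ∈ N then g2 x
    else g3 x := ⟨_, rfl⟩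
  have f1 : ∀ x ∈ J, φ x = g1 x := by
    intro x hx
    rw [hφ]
    simp only [hx, if_true]
  have f2 : ∀ x, x ∉ J → x ∈ N → φ x = g2 x := by
    intro x hx hx'
    rw [hφ]
    simp only [hx, hx', if_true, if_false]
  have f3 : ∀ x, x ∉ J → x ∉ N → φ x = g3 x := by
    intro x hx hx'
    rw [hφ]
    simp only [hx, hx', if_false]
  have m3 : ∀ x, x ∉ J → x ∉ N → x ∈ Finset.univ \ (J ∪ N) := by
    intro x hx hx'
    simp [hx, hx']
  have c1 : ∀ x ∈ J, φ x ∈ F := fun x hx => by rw [f1 x hx]; exact a1 x hx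
  have c2 : ∀ x, x ∉ J → x ∈ N → φ x ∈ Z := fun x hx hx' => by rw [f2 x hx hx']; exact a2 x hx'
  have c3 : ∀ x, x ∉ J → x ∉ N → φ x ∈ R \ N.image g2 := fun x hx hx' => by
    rw [f3 x hx hx']
    exact a3 x (m3 x hx hx')
  have c4 : ∀ x, x ∉ J → φ x ∈ R := by
    intro x hx
    by_cases hx' : x ∈ N
    · exact hZR (c2 x hx hx')
    · exact (Finset.mem_sdiff.1 (c3 x hx hx')).1
  have hFR : ∀ x ∈ F, x ∉ R := fun x hx hx' => Finset.disjoint_left.1 hRF hx' hx
  have hinj : Function.Injective φ := by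
    intro x y hxy
    by_cases hx : x ∈ J
    · by_cases hy : y ∈ J
      · rw [f1 x hx, f1 y hy] at hxy
        exact b1 x hx y hy hxy
      · exact absurd (hxy ▸ c4 y hy) (hFR _ (c1 x hx))
    · by_cases hy : y ∈ J
      · exact absurd (hxy ▸ c4 x hx) (hFR _ (c1 y hy))
      · by_cases hx' : x ∈ N
        · by_cases hy' : y ∈ N
          · rw [f2 x hx hx', f2 y hy hy'] at hxy
            exact b2 x hx' y hy' hxy
          · exfalso
            refine (Finset.mem_sdiff.1 (c3 y hy hy')).2 ?_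
            rw [← hxy, f2 x hx hx']
            exact Finset.mem_image_of_mem _ hx'
        · by_cases hy' : y ∈ N
          · exfalso
            refine (Finset.mem_sdiff.1 (c3 x hx hx')).2 ?_
            rw [hxy, f2 y hy hy']
            exact Finset.mem_image_of_mem _ hy'
          · rw [f3 x hx hx', f3 y hy hy'] at hxy
            exact b3 x (m3 x hx hx') y (m3 y hy hy') hxy
  have hadj1 : ∀ x ∈ J, ∀ y, T.Adj x y → Cᶜ.Adj (φ x) (φ y) := by
    intro x hx y hxy
    have hy : y ∉ J := fun hy => hJi x hx y hy hxy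
    have hy' : y ∈ N := (memN y).2 ⟨x, hx, hxy⟩
    rw [compl_adj]
    exact ⟨fun h => hxy.ne (hinj h), hZ _ (c2 y hy hy') _ (c1 x hx)⟩
  refine contained_of_map φ hinj fun x y hxy => ?_
  by_cases hx : x ∈ J
  · exact hadj1 x hx y hxy
  · by_cases hy : y ∈ J
    · exact (hadj1 y hy x hxy.symm).symm
    · rw [compl_adj]
      exact ⟨fun h => hxy.ne (hinj h), hR _ (c4 x hx) _ (c4 y hy)⟩

end H57.SD
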