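import Pool.Agent.H57.SD.Ext

/-! # SD.Fin1 : few vertices of a blue clique have more than d blue neighbours in E (about 80 lines)

`R` is completely blue, `|R| = n - 1 - d` (`hR1`: `n ≤ |R| + d + 1`). Let `Z` = vertices of `R` with at least `d + 1` non-neighbours in `E` (`nd C z E`). Suppose `|Z| ≥ 2^L · 2 (L + 1) + 1`. For `z ∈ Z` choose a set
`F z ⊆ E` of exactly `d + 1` non-neighbours of `z`. There are at most `2^L` subsets of `E`, so some `F` is `F z` for more than `2 (L+1)` elements `z`; `d + 1 ≤ |E| ≤ L` (as `Z` is nonempty), so for at least `2 (d + 1)` of them. `emb_ext` with `d + 1` in place of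
`d` (`6 (d + 1) ≤ 6 L ≤ n`): `T ⊑ Cᶜ`, contradiction. -/

namespace H57.SD

open SimpleGraph Pool.Agent.H62.Decomp H67.SG

open Classical in
theorem few_rich {n : ℕ} (T : SimpleGraph (Fin n)) (hT : T.IsTree) {W : Type} (C : SimpleGraph W)
    (hfree : ¬ T ⊑ Cᶜ) (R E : Finset W) (d L : ℕ) (hRE : Disjoint R E)
    (hR : ∀ x ∈ R, ∀ y ∈ R, ¬ C.Adj x y) (hR1 : n ≤ R.card + d + 1) (hE : E.card ≤ L) (hn : 6 * L ≤ n) :
    (R.filter (fun z => d + 1 ≤ nd C z E)).card ≤ 2 ^ L * (2 * (L + 1)) := by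
  by_contra hcon
  have hcon' := not_le.1 hcon
  set Z : Finset W := R.filter (fun z => d + 1 ≤ nd C z E) with hZdef
  have hex : ∀ z : W, ∃ S : Finset W, z ∈ Z → S ⊆ E.filter (fun y => ¬ C.Adj z y) ∧ S.card = d + 1 := by
    intro z
    by_cases hz : z ∈ Z
    · have h1 : d + 1 ≤ nd C z E := (Finset.mem_filter.1 hz).2
      obtain ⟨S, hS1, hS2⟩ := Finset.exists_subset_card_eq h1
      exact ⟨S, fun _ => ⟨hS1, hS2⟩⟩
    · exact ⟨∅, fun h => absurd h hz⟩
  choose f hf using hex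
  have hmaps : ∀ z ∈ Z, f z ∈ E.powerset := fun z hz =>
    Finset.mem_powerset.2 ((hf z hz).1.trans (Finset.filter_subset _ _))
  have hpow : E.powerset.card ≤ 2 ^ L := by
    rw [Finset.card_powerset]
    exact Nat.pow_le_pow_right (by norm_num) hE
  obtain ⟨F, hF, hcard⟩ := Finset.exists_lt_card_fiber_of_mul_lt_card_of_maps_to hmaps
    (lt_of_le_of_lt (Nat.mul_le_mul_right (2 * (L + 1)) hpow) hcon')
  have hne : (Z.filter (fun z => f z = F)).Nonempty := Finset.card_pos.1 (lt_of_le_of_lt (Nat.zero_le _) hcard)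
  obtain ⟨z0, hz0⟩ := hne
  have hz0' := Finset.mem_filter.1 hz0
  have hFd : F.card = d + 1 := by
    rw [← hz0'.2]
    exact (hf z0 hz0'.1).2
  have hFE : F ⊆ E := Finset.mem_powerset.1 hF
  have hdL : d + 1 ≤ L := by
    rw [← hFd]
    exact (Finset.card_le_card hFE).trans hE
  refine hfree (emb_ext T hT C R F (Z.filter (fun z => f z = F)) (d + 1) (hRE.mono_right hFE) hFd (by omega) hR (by omega)
    (fun z hz => (Finset.mem_filter.1 (Finset.mem_filter.1 hz).1).1) (by omega) ?_)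
  intro z hz x hx hadj
  have h1 := Finset.mem_filter.1 hz
  rw [← h1.2] at hx
  exact (Finset.mem_filter.1 ((hf z h1.1).1 hx)).2 hadj.symm

end H57.SD
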