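import Pool.Agent.H57.SD.Def

/-! # SD.Sur : the surplus (about 80 lines)

`surplus_spec`: the set in the definition of `surplus` is nonempty (`exists_surj_coloring`, `k ≥ 1`), `Nat.sInf_mem`; with `hk` the colouring can be written with `Fin k`. `surplus_le`: `Nat.sInf_le`. `surplus_pos`: an empty class would give a colouring with `k - 1` colours (`card_le_chromaticNumber_iff_forall_surjective`: every colouring with `k` colours is
surjective, as in `exists_surj_coloring` of `H62.Decomp.Basic`). -/

namespace H57.SD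

open SimpleGraph Pool.Agent.H62.Decomp H67.SG

private theorem sur_nat {V : Type} (G : SimpleGraph V) (k : ℕ)
    (hk : G.chromaticNumber = k) : G.chromaticNumber.toNat = k := by
  rw [hk]
  exact ENat.toNat_natCast k

private theorem sur_cast {V : Type} (G : SimpleGraph V) {m k : ℕ} (h : m = k)
    (c : G.Coloring (Fin m)) (i : Fin m) (t : ℕ) (ht : {x | c x = i}.ncard = t) :
    ∃ (f : G.Coloring (Fin k)) (j : Fin k), {x | f x = j}.ncard = t := by
  subst h
  exact ⟨c, i, ht⟩

theorem surplus_spec {V : Type} [Fintype V] (G : SimpleGraph V) (k : ℕ) (hk2 : 2 ≤ k)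
    (hk : G.chromaticNumber = k) :
    ∃ (f : G.Coloring (Fin k)) (i : Fin k), {x | f x = i}.ncard = surplus G := by
  have hk' : G.chromaticNumber.toNat = k := sur_nat G k hk
  have hne : {t : ℕ | ∃ (c : G.Coloring (Fin G.chromaticNumber.toNat))
      (i : Fin G.chromaticNumber.toNat), {x | c x = i}.ncard = t}.Nonempty := by
    obtain ⟨c, -⟩ := exists_surj_coloring G
    exact ⟨_, c, ⟨0, by omega⟩, rfl⟩
  obtain ⟨c, i, hci⟩ := Nat.sInf_mem hne
  exact sur_cast G hk' c i _ hci

theorem surplus_le {V : Type} [Fintype V] (G : SimpleGraph V) (k : ℕ) (hk : G.chromaticNumber = k)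
    (f : G.Coloring (Fin k)) (i : Fin k) : surplus G ≤ {x | f x = i}.ncard := by
  have hk' : G.chromaticNumber.toNat = k := sur_nat G k hk
  exact Nat.sInf_le (sur_cast G hk'.symm f i _ rfl)

theorem surplus_pos {V : Type} [Fintype V] (G : SimpleGraph V) (k : ℕ) (hk2 : 2 ≤ k)
    (hk : G.chromaticNumber = k) : 1 ≤ surplus G := by
  obtain ⟨f, i, hfi⟩ := surplus_spec G k hk2 hk
  rw [← hfi]
  have h2 := (card_le_chromaticNumber_iff_forall_surjective (G := G) (α := Fin k)).mp
  obtain ⟨x, hx⟩ := h2 (by rw [Fintype.card_fin, hk]) f i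
  exact (Set.ncard_pos (Set.toFinite _)).mpr ⟨x, hx⟩

end H57.SD
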