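import Pool.Agent.H67.SG.Join
import Pool.Agent.H57.SD.Sur

/-! # SD.LowC : lower bound for r(B(G),T) with the surplus (about 120 lines)

`lt_class` for the complete bipartite graph `C` on `Fin (s-1) ⊕ Fin (n-1)`, `s = surplus G ≥ 1`: a member (classes `i`, `j` of a surjective colouring `c`) contained in `C` gives a new colouring of `G` with `k` colours: recolour the union of the classes `i`, `j` by the side of the image (left side: `i`, right side: `j`); the class `i` now has
at most `s - 1` elements, impossible by `surplus_le`. The complement of `C` has no edge between the two sides and `T` is connected with `n` vertices, more than both sides have (`s - 1 < n` as `surplus G ≤ card V ≤ n`). -/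

namespace H57.SD

open SimpleGraph Pool.Agent.H62.Decomp H67.SG

private theorem lowc_const {n : ℕ} {T : SimpleGraph (Fin n)} (hT : T.IsTree) {A : Type} (f : Fin n → A)
    (hf : ∀ x y, T.Adj x y → f x = f y) (x y : Fin n) : f x = f y := by
  obtain ⟨w⟩ := hT.connected.preconnected x y
  induction w with
  | nil => rfl
  | cons h _ ih => exact (hf _ _ h).trans ih

theorem class_low {V : Type} [Fintype V] (G : SimpleGraph V) (k : ℕ) (hk2 : 2 ≤ k)
    (hk : G.chromaticNumber = k) {n : ℕ} (T : SimpleGraph (Fin n)) (hT : T.IsTree)
    (hn : Fintype.card V ≤ n) : n - 1 + surplus G ≤ classRamsey G T := by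
  classical
  have hkk : G.chromaticNumber.toNat = k := by rw [hk, ENat.toNat_natCast]
  have hnp : 0 < n := by
    obtain ⟨v⟩ := hT.connected.nonempty
    exact Fin.pos v
  have hs1 := surplus_pos G k hk2 hk
  have hsn : surplus G ≤ n := by
    obtain ⟨f, i, hfi⟩ := surplus_spec G k hk2 hk
    rw [← hfi]
    refine le_trans (le_trans (Set.ncard_le_ncard (Set.subset_univ _) Set.finite_univ) ?_) hn
    rw [Set.ncard_univ, Nat.card_eq_fintype_card]
  have h := lt_class G (by omega) T (completeBipartiteGraph (Fin (surplus G - 1)) (Fin (n - 1))) (by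
    subst hkk
    rintro ⟨c, i, j, -, hij, ⟨φ⟩⟩
    let P : V → Prop := fun v => ∃ h : c v = i ∨ c v = j, (φ ⟨v, h⟩).isLeft = true
    let f : V → Fin G.chromaticNumber.toNat := fun v =>
      if c v = i ∨ c v = j then (if P v then i else j) else c v
    have hval : ∀ u v, G.Adj u v → f u ≠ f v := by
      intro u v huv hfe
      simp only [f] at hfe
      by_cases hu : c u = i ∨ c u = j
      · by_cases hv : c v = i ∨ c v = j
        · rw [if_pos hu, if_pos hv] at hfe
          have h3 : (completeBipartiteGraph (Fin (surplus G - 1)) (Fin (n - 1))).Adj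
              (φ ⟨u, hu⟩) (φ ⟨v, hv⟩) := φ.toHom.map_adj huv
          have hPu : P u ↔ (φ ⟨u, hu⟩).isLeft = true := ⟨fun h => h.2, fun h => ⟨hu, h⟩⟩
          have hPv : P v ↔ (φ ⟨v, hv⟩).isLeft = true := ⟨fun h => h.2, fun h => ⟨hv, h⟩⟩
          have h4 : P u ↔ P v := by
            by_cases h5 : P u <;> by_cases h6 : P v
            · exact ⟨fun _ => h6, fun _ => h5⟩
            · rw [if_pos h5, if_neg h6] at hfe; exact absurd hfe hij
            · rw [if_neg h5, if_pos h6] at hfe; exact absurd hfe.symm hij
            · exact ⟨fun h => absurd h h5, fun h => absurd h h6⟩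
          rw [hPu, hPv] at h4
          rcases hx : φ ⟨u, hu⟩ with a | a <;> rcases hy : φ ⟨v, hv⟩ with b | b <;>
            rw [hx, hy] at h3 h4 <;> simp [completeBipartiteGraph] at h3 h4
        · rw [if_pos hu, if_neg hv] at hfe
          split_ifs at hfe with h5
          · exact hv (Or.inl hfe.symm)
          · exact hv (Or.inr hfe.symm)
      · by_cases hv : c v = i ∨ c v = j
        · rw [if_neg hu, if_pos hv] at hfe
          split_ifs at hfe with h5
          · exact hu (Or.inl hfe)
          · exact hu (Or.inr hfe)
        · rw [if_neg hu, if_neg hv] at hfe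
          exact c.valid huv hfe
    have hle := surplus_le G G.chromaticNumber.toNat hk ⟨f, fun {u v} h => hval u v h⟩ i
    have hcl : ∀ x : {x | f x = i}, ∃ a : Fin (surplus G - 1),
        ∃ h : c x.1 = i ∨ c x.1 = j, φ ⟨x.1, h⟩ = Sum.inl a := by
      rintro ⟨x, hx⟩
      have hx' : f x = i := hx
      simp only [f] at hx'
      by_cases hu : c x = i ∨ c x = j
      · rw [if_pos hu] at hx'
        by_cases hP : P x
        · obtain ⟨h, hl⟩ := hP
          rcases hy : φ ⟨x, h⟩ with a | b
          · exact ⟨a, h, hy⟩
          · rw [hy] at hl; simp at hl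
        · rw [if_neg hP] at hx'; exact absurd hx'.symm hij
      · rw [if_neg hu] at hx'; exact absurd (Or.inl hx') hu
    choose g hg1 hg2 using hcl
    have hinj : Function.Injective g := by
      intro x y hxy
      have h3 := hg2 x
      have h4 := hg2 y
      rw [hxy, ← h4] at h3
      have h5 := φ.injective h3
      exact Subtype.ext (Subtype.mk.inj h5)
    have h6 := Fintype.card_le_of_injective g hinj
    have h7 : {x | f x = i}.ncard = Fintype.card {x | f x = i} := by
      rw [← Nat.card_coe_set_eq, Nat.card_eq_fintype_card]
    rw [Fintype.card_fin, ← h7] at h6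
    have h8 : surplus G ≤ {x | f x = i}.ncard := hle
    omega) (by
    rintro ⟨ψ⟩
    have hside : ∀ x y, T.Adj x y → (ψ x).isLeft = (ψ y).isLeft := by
      intro x y hxy
      have h3 : (completeBipartiteGraph (Fin (surplus G - 1)) (Fin (n - 1)))ᶜ.Adj (ψ x) (ψ y) :=
        ψ.toHom.map_adj hxy
      rw [compl_adj] at h3
      rcases hx : ψ x with a | a <;> rcases hy : ψ y with b | b <;> rw [hx, hy] at h3 <;>
        simp [completeBipartiteGraph] at h3 ⊢
    have hall := lowc_const hT (fun x => (ψ x).isLeft) hside
    let x0 : Fin n := ⟨0, hnp⟩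
    rcases hb : (ψ x0).isLeft with _ | _
    · have hr : ∀ x, ∃ b : Fin (n - 1), ψ x = Sum.inr b := by
        intro x
        have h4 := hall x x0
        simp only [hb] at h4
        rcases hx : ψ x with a | b
        · rw [hx] at h4; simp at h4
        · exact ⟨b, rfl⟩
      choose g hg using hr
      have hinj : Function.Injective g := by
        intro x y hxy
        apply ψ.injective
        show ψ x = ψ y
        rw [hg x, hg y, hxy]
      have h6 := Fintype.card_le_of_injective g hinj
      rw [Fintype.card_fin, Fintype.card_fin] at h6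
      omega
    · have hr : ∀ x, ∃ b : Fin (surplus G - 1), ψ x = Sum.inl b := by
        intro x
        have h4 := hall x x0
        simp only [hb] at h4
        rcases hx : ψ x with a | b
        · exact ⟨a, rfl⟩
        · rw [hx] at h4; simp at h4
      choose g hg using hr
      have hinj : Function.Injective g := by
        intro x y hxy
        apply ψ.injective
        show ψ x = ψ y
        rw [hg x, hg y, hxy]
      have h6 := Fintype.card_le_of_injective g hinj
      rw [Fintype.card_fin, Fintype.card_fin] at h6
      omega)
  rw [Fintype.card_sum, Fintype.card_fin, Fintype.card_fin] at h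
  omega

end H57.SD
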