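import Pool.Agent.H67.SG.TDeg
import Pool.Agent.H57.SD.Def

/-! # SD.LowInd : many independent vertices of degree at most 2 in a tree (about 60 lines)

`sum_deg`: `Σ deg = 2 n - 2`, so at most `(2 n - 2) / 3` vertices have degree `≥ 3` and at least `(n + 2) / 3` have degree `≤ 2`. `two_col`: one of the two colours is the colour of at least half of
them, at least `n / 6 ≥ d`; vertices of the same colour are not adjacent. Take a subset with exactly `d` elements. -/

namespace H57.SD

open SimpleGraph Pool.Agent.H62.Decomp H67.SG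

theorem low_indep {n : ℕ} (T : SimpleGraph (Fin n)) (hT : T.IsTree) (d : ℕ) (hd : 6 * d ≤ n) :
    ∃ J : Finset (Fin n), J.card = d ∧ (∀ x ∈ J, deg T x ≤ 2) ∧ ∀ x ∈ J, ∀ y ∈ J, ¬ T.Adj x y := by
  classical
  have h1 := sum_deg T hT
  have h2 : 3 * (Finset.univ.filter (fun v => ¬ deg T v ≤ 2)).card ≤ ∑ v, deg T v := by
    rw [Finset.card_filter, Finset.mul_sum]
    refine Finset.sum_le_sum fun v _ => ?_
    split_ifs <;> omega
  have h3 := Finset.card_filter_add_card_filter_not (s := (Finset.univ : Finset (Fin n)))
    (fun v => deg T v ≤ 2)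
  rw [Finset.card_univ, Fintype.card_fin] at h3
  obtain ⟨f, hf⟩ := two_col T hT
  have h4 := Finset.card_filter_add_card_filter_not
    (s := (Finset.univ : Finset (Fin n)).filter (fun v => deg T v ≤ 2)) (fun v => f v = true)
  have key : ∀ b : Bool, d ≤ ((Finset.univ.filter (fun v => deg T v ≤ 2)).filter
      (fun v => f v = b)).card →
      ∃ J : Finset (Fin n), J.card = d ∧ (∀ x ∈ J, deg T x ≤ 2) ∧
        ∀ x ∈ J, ∀ y ∈ J, ¬ T.Adj x y := by
    intro b hb
    obtain ⟨J, hJ, hc⟩ := Finset.exists_subset_card_eq hb
    refine ⟨J, hc, fun x hx => ?_, fun x hx y hy hxy => ?_⟩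
    · have := hJ hx
      simp only [Finset.mem_filter, Finset.mem_univ, true_and] at this
      exact this.1
    · have hx' := hJ hx
      have hy' := hJ hy
      simp only [Finset.mem_filter, Finset.mem_univ, true_and] at hx' hy'
      exact hf x y hxy (hx'.2.trans hy'.2.symm)
  rcases Nat.lt_or_ge ((Finset.univ.filter (fun v => deg T v ≤ 2)).filter
      (fun v => f v = true)).card d with h5 | h5
  · apply key false
    have h6 : ((Finset.univ.filter (fun v => deg T v ≤ 2)).filter (fun v => f v = false)) =
        ((Finset.univ.filter (fun v => deg T v ≤ 2)).filter (fun v => ¬ f v = true)) := by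
      ext v
      simp
    rw [h6]
    omega
  · exact key true h5

end H57.SD
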