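import Pool.Agent.H67.SG.Join
import Pool.Agent.H57.SD.Sur

/-! # SD.LowR : lower bound for r(G,T) with the surplus (about 100 lines)

`join_lower` with `d = k - 1` and `H` = the empty graph on `Fin (s - 1)`, `s = surplus G ≥ 1`: `ContainsPart G (k-1) H` means a set `U` with an injection into `Fin (s-1)`, no edges inside `U`, and a colouring of `G - U` with `k - 1` colours: together a colouring of `G` with `k` colours (colour `k-1` on `U`) with a class of size `≤ s - 1`,
impossible by `surplus_le`. `T ⋢ Hᶜ` since `s - 1 < n` (`surplus G ≤ card V ≤ n`). So `(k-1)(n-1) + (s-1) < ramsey G T`. -/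

namespace H57.SD

open SimpleGraph Pool.Agent.H62.Decomp H67.SG

theorem ramsey_low {V : Type} [Fintype V] (G : SimpleGraph V) (k : ℕ) (hk2 : 2 ≤ k)
    (hk : G.chromaticNumber = k) {n : ℕ} (T : SimpleGraph (Fin n)) (hT : T.IsTree)
    (hn : Fintype.card V ≤ n) : (k - 1) * (n - 1) + surplus G ≤ ramsey G T := by
  classical
  obtain ⟨m, rfl⟩ : ∃ m, k = m + 1 := ⟨k - 1, by omega⟩
  simp only [Nat.add_sub_cancel]
  have hpos := surplus_pos G (m + 1) hk2 hk
  have hle : surplus G ≤ Fintype.card V := by
    obtain ⟨f, i, hfi⟩ := surplus_spec G (m + 1) hk2 hk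
    rw [← hfi]
    refine (Set.ncard_le_ncard (Set.subset_univ _) (Set.toFinite _)).trans ?_
    rw [Set.ncard_univ, Nat.card_eq_fintype_card]
  have key := join_lower G m T hT (W := Fin (surplus G - 1)) ⊥ (by
    rintro ⟨U, ⟨c⟩, ⟨φ⟩⟩
    have hval : ∀ {u v : V}, G.Adj u v →
        (if h : u ∈ U then Fin.last m else (c ⟨u, h⟩).castSucc) ≠
          (if h : v ∈ U then Fin.last m else (c ⟨v, h⟩).castSucc) := by
      intro u v huv
      by_cases hu : u ∈ U <;> by_cases hv : v ∈ U
      · have h1 : (G.induce U).Adj ⟨u, hu⟩ ⟨v, hv⟩ := huv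
        have h2 := φ.toHom.map_adj h1
        exact absurd h2 (by simp)
      · rw [dif_pos hu, dif_neg hv]
        exact (Fin.castSucc_lt_last _).ne'
      · rw [dif_neg hu, dif_pos hv]
        exact (Fin.castSucc_lt_last _).ne
      · rw [dif_neg hu, dif_neg hv]
        have h1 : (G.induce Uᶜ).Adj ⟨u, hu⟩ ⟨v, hv⟩ := huv
        intro h2
        exact c.valid h1 (Fin.castSucc_injective _ h2)
    have h3 := surplus_le G (m + 1) hk (Coloring.mk _ hval) (Fin.last m)
    have h4 : {x | (Coloring.mk _ hval : G.Coloring (Fin (m + 1))) x = Fin.last m} = U := by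
      ext x
      change (if h : x ∈ U then Fin.last m else (c ⟨x, h⟩).castSucc) = Fin.last m ↔ x ∈ U
      by_cases hx : x ∈ U
      · rw [dif_pos hx]
        exact ⟨fun _ => hx, fun _ => rfl⟩
      · rw [dif_neg hx]
        exact ⟨fun h => absurd h (Fin.castSucc_lt_last _).ne, fun h => absurd h hx⟩
    rw [h4] at h3
    have h5 : U.ncard ≤ surplus G - 1 := by
      have h6 : Nat.card U ≤ Nat.card (Fin (surplus G - 1)) :=
        Nat.card_le_card_of_injective (fun x : U => φ x) φ.injective
      rw [Nat.card_eq_fintype_card (α := Fin (surplus G - 1)), Fintype.card_fin] at h6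
      exact h6
    omega) (by
    rintro ⟨ψ⟩
    have h1 := Fintype.card_le_of_injective (fun x => ψ x) ψ.injective
    rw [Fintype.card_fin, Fintype.card_fin] at h1
    omega)
  rw [Fintype.card_fin] at key
  omega

end H57.SD
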