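import Pool.Agent.H57.SD.Def

/-! # SD.MemM : a matching member of B(G) (about 180 lines)

`subst`/use `hk` to identify `G.chromaticNumber.toNat` with `k`. `m = card V`, `num : V ≃ Fin m`. From `lam` (`MJ G (k-1) 1`) define a colouring of `G` with `k` colours: class `j ≠ 0` of `lam` gets colour `j` (value), class `0` is split into two independent sets: of an adjacent pair in class `0` the one with the smaller number gets colour `0`, the other
colour `k - 1` (last); vertices without partner get colour `0`. It is proper, and surjective because `χ(G) = k` (`card_le_chromaticNumber_iff_forall_surjective`, as in `exists_surj_coloring` of `H62.Decomp.Basic`). `G.induce` of the union of the colours `0` and `last` is the graph induced by the class `0` of `lam`, a matching with isolated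
vertices; embed it in `C` with the `m` disjoint edges of `HasM 1 m C`: a vertex with partner goes to `a μ` (smaller number) or `b μ`, `μ` = the smaller number of the pair, a vertex without partner to `a (num x)`. -/

namespace H57.SD

open SimpleGraph Pool.Agent.H62.Decomp H67.SG

theorem member_M {V : Type} [Fintype V] [Nonempty V] (G : SimpleGraph V) (k : ℕ) (hk2 : 2 ≤ k)
    (hk : G.chromaticNumber = k) (hMJ : MJ G (k - 1) 1) {W : Type} (C : SimpleGraph W)
    (h : HasM 1 (Fintype.card V) C) : ContainsMember G C := by
  classical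
  have hk' : G.chromaticNumber.toNat = k := by rw [hk]; rfl
  subst hk'
  obtain ⟨lam, hlam⟩ := hMJ
  obtain ⟨-, a, b, -, ha, hb, hab, hadj, -, -, -⟩ := h
  let num : V ≃ Fin (Fintype.card V) := Fintype.equivFin V
  -- a smaller partner
  let P : V → Prop := fun x => ∃ y, lam y = lam x ∧ G.Adj x y ∧ num y < num x
  have hlast : G.chromaticNumber.toNat - 1 < G.chromaticNumber.toNat := by omega
  have h0 : 0 < G.chromaticNumber.toNat := by omega
  let g : V → Fin G.chromaticNumber.toNat := fun x =>
    if (lam x : ℕ) = 0 then (if P x then ⟨G.chromaticNumber.toNat - 1, hlast⟩ else ⟨0, h0⟩)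
    else ⟨lam x, lt_of_lt_of_le (lam x).2 (Nat.sub_le _ _)⟩
  have hg1 : ∀ x, (lam x : ℕ) = 0 → P x → g x = ⟨G.chromaticNumber.toNat - 1, hlast⟩ := by
    intro x hx hP
    show (if (lam x : ℕ) = 0 then (if P x then _ else _) else _) = _
    rw [if_pos hx, if_pos hP]
  have hg2 : ∀ x, (lam x : ℕ) = 0 → ¬ P x → g x = ⟨0, h0⟩ := by
    intro x hx hP
    show (if (lam x : ℕ) = 0 then (if P x then _ else _) else _) = _
    rw [if_pos hx, if_neg hP]
  have hg3 : ∀ x, (lam x : ℕ) ≠ 0 → (g x : ℕ) = lam x := by
    intro x hx
    show ((if (lam x : ℕ) = 0 then (if P x then _ else _) else _ : Fin G.chromaticNumber.toNat) : ℕ) = _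
    rw [if_neg hx]
  have hzero : ∀ x, (g x = ⟨0, h0⟩ ∨ g x = ⟨G.chromaticNumber.toNat - 1, hlast⟩) → (lam x : ℕ) = 0 := by
    intro x hx
    by_contra hne
    have h3 := hg3 x hne
    have h4 := (lam x).2
    rcases hx with hx | hx
    · rw [hx] at h3
      exact hne h3.symm
    · rw [hx] at h3
      simp only at h3
      omega
  -- uniqueness of the partner
  have huniq : ∀ x y z, lam y = lam x → G.Adj x y → lam z = lam x → G.Adj x z → z = y := by
    intro x y z h1 h2 h3 h4
    exact (hlam x y h1.symm h2).2 z h3 h4
  have hPn : ∀ x y, lam x = lam y → G.Adj x y → num y < num x → P x ∧ ¬ P y := by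
    intro x y h1 h2 h3
    refine ⟨⟨y, h1.symm, h2, h3⟩, ?_⟩
    rintro ⟨z, hz1, hz2, hz3⟩
    have h4 : z = x := huniq y x z h1 h2.symm hz1 hz2
    rw [h4] at hz3
    exact absurd h3 (not_lt.2 hz3.le)
  have key : ∀ {x y : V}, G.Adj x y → g x ≠ g y := by
    intro x y hxy heq
    by_cases hl : lam x = lam y
    · have hz : (lam x : ℕ) = 0 := by
        have h1 := (hlam x y hl hxy).1
        omega
      have hz' : (lam y : ℕ) = 0 := by rw [← hl]; exact hz
      have hne : (⟨G.chromaticNumber.toNat - 1, hlast⟩ : Fin G.chromaticNumber.toNat) ≠ ⟨0, h0⟩ := by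
        intro h
        have h1 := congrArg Fin.val h
        simp only at h1
        omega
      rcases lt_trichotomy (num x) (num y) with hlt | hlt | hlt
      · have h1 := hPn y x hl.symm hxy.symm hlt
        rw [hg1 y hz' h1.1, hg2 x hz h1.2] at heq
        exact hne heq.symm
      · exact hxy.ne (num.injective hlt)
      · have h1 := hPn x y hl hxy hlt
        rw [hg1 x hz h1.1, hg2 y hz' h1.2] at heq
        exact hne heq
    · by_cases hx : (lam x : ℕ) = 0
      · have hy : (lam y : ℕ) = 0 := by
          apply hzero
          rw [← heq]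
          by_cases hP : P x
          · exact Or.inr (hg1 x hx hP)
          · exact Or.inl (hg2 x hx hP)
        exact hl (Fin.ext (by rw [hx, hy]))
      · by_cases hy : (lam y : ℕ) = 0
        · have hx' : (lam x : ℕ) = 0 := by
            apply hzero
            rw [heq]
            by_cases hP : P y
            · exact Or.inr (hg1 y hy hP)
            · exact Or.inl (hg2 y hy hP)
          exact hx hx'
        · apply hl
          apply Fin.ext
          rw [← hg3 x hx, ← hg3 y hy, heq]
  let f : G.Coloring (Fin G.chromaticNumber.toNat) := Coloring.mk g key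
  have hsurj : Function.Surjective f := by
    have h2 := (card_le_chromaticNumber_iff_forall_surjective (G := G)
      (α := Fin G.chromaticNumber.toNat)).mp
    exact h2 (by rw [Fintype.card_fin, ← hk]) f
  refine ⟨f, ⟨0, h0⟩, ⟨G.chromaticNumber.toNat - 1, hlast⟩, hsurj, ?_, ?_⟩
  · intro h
    have h1 := congrArg Fin.val h
    simp only at h1
    omega
  -- the embedding
  let φ : V → W := fun x => if h : P x then b (num h.choose) else a (num x)
  have hφ1 : ∀ x (h : P x), φ x = b (num h.choose) := fun x h => dif_pos h
  have hφ2 : ∀ x, ¬ P x → φ x = a (num x) := fun x h => dif_neg h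
  have hinj : Function.Injective φ := by
    intro x y hxy
    by_cases hx : P x
    · by_cases hy : P y
      · rw [hφ1 x hx, hφ1 y hy] at hxy
        have h1 : hx.choose = hy.choose := num.injective (hb hxy)
        obtain ⟨hx1, hx2, -⟩ := hx.choose_spec
        obtain ⟨hy1, hy2, -⟩ := hy.choose_spec
        rw [← h1] at hy1 hy2
        exact (huniq hx.choose x y hx1.symm hx2.symm hy1.symm hy2.symm).symm
      · rw [hφ1 x hx, hφ2 y hy] at hxy
        exact absurd hxy.symm (hab _ _)
    · by_cases hy : P y
      · rw [hφ2 x hx, hφ1 y hy] at hxy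
        exact absurd hxy (hab _ _)
      · rw [hφ2 x hx, hφ2 y hy] at hxy
        exact num.injective (ha hxy)
  have hone : ∀ x y, lam x = lam y → G.Adj x y → num y < num x → C.Adj (φ x) (φ y) := by
    intro x y h1 h2 h3
    obtain ⟨hP, hP'⟩ := hPn x y h1 h2 h3
    rw [hφ1 x hP, hφ2 y hP']
    obtain ⟨hx1, hx2, -⟩ := hP.choose_spec
    have h4 : hP.choose = y := huniq x y _ h1.symm h2 hx1 hx2
    rw [h4]
    exact (hadj _).symm
  refine contained_of_map (fun x => φ x.1) (fun x y h => Subtype.ext (hinj h)) ?_
  rintro ⟨x, hx1⟩ ⟨y, hy1⟩ hxy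
  have hxy' : G.Adj x y := hxy
  have hx0 : (lam x : ℕ) = 0 := hzero x hx1
  have hy0 : (lam y : ℕ) = 0 := hzero y hy1
  have hl : lam x = lam y := Fin.ext (by rw [hx0, hy0])
  show C.Adj (φ x) (φ y)
  rcases lt_trichotomy (num x) (num y) with hlt | hlt | hlt
  · exact (hone y x hl.symm hxy'.symm hlt).symm
  · exact absurd (num.injective hlt) hxy'.ne
  · exact hone x y hl hxy' hlt

end H57.SD
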