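import Pool.Agent.H57.SD.Def

/-! # SD.MemS : a member of B(G) inside K_(s,m) (about 80 lines)

Identify `G.chromaticNumber.toNat` with `k` (`subst`). `f` is surjective because `χ(G) = k`. Choose any `j ≠ i` (`k ≥ 2`). The class `i` (at most `s` vertices) goes injectively to `S`, the class `j` (at most `m = card V` vertices) injectively to `Z 0`; `S` and `Z 0` are disjoint (completely joined, no loops) and all pairs are adjacent. -/

namespace H57.SD

open SimpleGraph Pool.Agent.H62.Decomp H67.SG

theorem member_S {V : Type} [Fintype V] [Nonempty V] (G : SimpleGraph V) (k : ℕ) (hk2 : 2 ≤ k)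
    (hk : G.chromaticNumber = k) (s : ℕ) (f : G.Coloring (Fin k)) (i : Fin k)
    (hf : {x | f x = i}.ncard ≤ s) {W : Type} (C : SimpleGraph W) (h : HasS 1 (Fintype.card V) s C) :
    ContainsMember G C := by
  classical
  have hk' : G.chromaticNumber.toNat = k := by rw [hk]; rfl
  subst hk'
  have hsurj : Function.Surjective f := by
    have h2 := (card_le_chromaticNumber_iff_forall_surjective (G := G)
      (α := Fin G.chromaticNumber.toNat)).mp
    exact h2 (by rw [Fintype.card_fin, ← hk]) f
  have : Nontrivial (Fin G.chromaticNumber.toNat) := Fin.nontrivial_iff_two_le.2 hk2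
  obtain ⟨j, hj⟩ := exists_ne i
  refine ⟨f, i, j, hsurj, hj.symm, ?_⟩
  obtain ⟨S, Z, hS, hZ, hSZ, -⟩ := h
  set A : Finset V := Finset.univ.filter (fun x => f x = i) with hA
  have hAc : Fintype.card A ≤ Fintype.card S := by
    rw [Fintype.card_coe, Fintype.card_coe, hS]
    refine le_trans (le_of_eq ?_) hf
    rw [← Set.ncard_coe_finset]
    congr 1
    ext x
    simp [hA]
  have hBc : Fintype.card V ≤ Fintype.card (Z 0) := by
    rw [Fintype.card_coe, hZ]
  obtain ⟨e⟩ := Function.Embedding.nonempty_of_card_le hAc
  obtain ⟨g⟩ := Function.Embedding.nonempty_of_card_le hBc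
  have hmem : ∀ x, f x = i → x ∈ A := by
    intro x hx
    rw [hA, Finset.mem_filter]
    exact ⟨Finset.mem_univ _, hx⟩
  have hcross : ∀ (x : A) (y : V), C.Adj (e x : W) (g y : W) := fun x y =>
    hSZ 0 _ (g y).2 _ (e x).2
  refine contained_of_map (fun x => if h : f x.1 = i then (e ⟨x.1, hmem _ h⟩ : W) else (g x.1 : W))
    ?_ ?_
  · rintro ⟨x, hx⟩ ⟨y, hy⟩ hxy
    simp only at hxy
    apply Subtype.ext
    show x = y
    by_cases h1 : f x = i
    · by_cases h2 : f y = i
      · rw [dif_pos h1, dif_pos h2] at hxy
        have h3 := e.injective (Subtype.ext hxy)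
        exact congrArg (Subtype.val : A → V) h3
      · rw [dif_pos h1, dif_neg h2] at hxy
        exact absurd hxy (hcross _ _).ne
    · by_cases h2 : f y = i
      · rw [dif_neg h1, dif_pos h2] at hxy
        exact absurd hxy.symm (hcross _ _).ne
      · rw [dif_neg h1, dif_neg h2] at hxy
        exact g.injective (Subtype.ext hxy)
  · rintro ⟨x, hx⟩ ⟨y, hy⟩ hxy
    have hadj : G.Adj x y := hxy
    have hne : f x ≠ f y := f.valid hadj
    show C.Adj (if h : f x = i then (e ⟨x, hmem _ h⟩ : W) else (g x : W))
      (if h : f y = i then (e ⟨y, hmem _ h⟩ : W) else (g y : W))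
    by_cases h1 : f x = i
    · have h2 : f y ≠ i := fun h => hne (h1.trans h.symm)
      rw [dif_pos h1, dif_neg h2]
      exact hcross _ _
    · have h3 : f x = j := hx.resolve_left h1
      have h2 : f y = i := by
        rcases hy with h | h
        · exact h
        · exact absurd (h3.trans h.symm) hne
      rw [dif_neg h1, dif_pos h2]
      exact (hcross _ _).symm

end H57.SD
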