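import Pool.Agent.H57.SD.PartD

/-! # SD.MulA : complete multipartite graphs, chromatic number and the positive direction (about 120 lines)

`multi_chi`: colour = index; one vertex of every part gives a clique with `k` vertices (or Mathlib). `multi_pos`: `a i = a j = 1`, `i ≠ j`: `MJ G (k-1) 1`: one class is the union of the parts `i`, `j` (two vertices), the others are the other parts (a bijection of `Fin k` minus `j` with `Fin (k-1)` sending `i` to `0`); `formula_of_matching`. -/

namespace H57.SD

open SimpleGraph Pool.Agent.H62.Decomp H67.SG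

theorem multi_chi (k : ℕ) (a : Fin k → ℕ) (ha : ∀ i, 1 ≤ a i) :
    (completeMultipartiteGraph (fun i => Fin (a i))).chromaticNumber = k := by
  rw [completeMultipartiteGraph.chromaticNumber (fun i => Fin (a i)) (fun i => ⟨0, ha i⟩)]
  simp

/-- a map of the indices which identifies exactly two of them and sends them to zero -/
theorem exists_lam (k : ℕ) (hk : 2 ≤ k) (i j : Fin k) (hij : i ≠ j) :
    ∃ g : Fin k → Fin (k - 1), (g i : ℕ) = 0 ∧ (g j : ℕ) = 0 ∧
      ∀ x y, g x = g y → x = y ∨ ((x = i ∨ x = j) ∧ (y = i ∨ y = j)) := by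
  classical
  let S : Finset (Fin k) := (Finset.univ.erase i).erase j
  have hS : S.card = k - 2 := by
    have hj : j ∈ (Finset.univ : Finset (Fin k)).erase i :=
      Finset.mem_erase.mpr ⟨hij.symm, Finset.mem_univ _⟩
    show ((Finset.univ.erase i).erase j).card = k - 2
    rw [Finset.card_erase_of_mem hj, Finset.card_erase_of_mem (Finset.mem_univ i), Finset.card_univ,
      Fintype.card_fin]
    omega
  let e : S ≃ Fin (k - 2) := S.equivFinOfCardEq hS
  have hmem : ∀ x : Fin k, ¬ (x = i ∨ x = j) → x ∈ S := by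
    intro x hx
    push Not at hx
    exact Finset.mem_erase.mpr ⟨hx.2, Finset.mem_erase.mpr ⟨hx.1, Finset.mem_univ _⟩⟩
  refine ⟨fun x => if hx : x = i ∨ x = j then ⟨0, by omega⟩ else
    ⟨(e ⟨x, hmem x hx⟩ : ℕ) + 1, by have := (e ⟨x, hmem x hx⟩).2; omega⟩, ?_, ?_, ?_⟩
  · simp
  · simp
  · intro x y hxy
    by_cases hx : x = i ∨ x = j <;> by_cases hy : y = i ∨ y = j
    · exact Or.inr ⟨hx, hy⟩
    · simp only [hx, hy, dif_pos, dif_neg, not_false_eq_true, Fin.mk.injEq] at hxy
      omega
    · simp only [hx, hy, dif_pos, dif_neg, not_false_eq_true, Fin.mk.injEq] at hxy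
      omega
    · left
      simp only [hx, hy, dif_neg, not_false_eq_true, Fin.mk.injEq] at hxy
      have h1 : e ⟨x, hmem x hx⟩ = e ⟨y, hmem y hy⟩ := Fin.ext (by omega)
      exact congrArg Subtype.val (e.injective h1)

theorem multi_pos (k : ℕ) (hk : 3 ≤ k) (a : Fin k → ℕ) (ha : ∀ i, 1 ≤ a i) (i j : Fin k) (hij : i ≠ j)
    (hi : a i = 1) (hj : a j = 1) :
    SatisfiesFormula (completeMultipartiteGraph (fun i => Fin (a i))) := by
  classical
  apply formula_of_matching _ k (by omega) (multi_chi k a ha)
  obtain ⟨g, hgi, hgj, hg⟩ := exists_lam k (by omega) i j hij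
  refine ⟨fun v => g v.1, ?_⟩
  intro x y hxy hadj
  have hne : x.1 ≠ y.1 := hadj
  obtain ⟨hx, hy⟩ := (hg x.1 y.1 hxy).resolve_left hne
  refine ⟨?_, ?_⟩
  · show (g x.1 : ℕ) < 1
    rcases hx with hx | hx <;> rw [hx]
    · rw [hgi]; exact Nat.one_pos
    · rw [hgj]; exact Nat.one_pos
  · intro z hz hxz
    have hne2 : x.1 ≠ z.1 := hxz
    have hz2 : z.1 = i ∨ z.1 = j := by
      rcases hg z.1 x.1 hz with h | h
      · exact absurd h.symm hne2
      · exact h.1
    have hyz : z.1 = y.1 := by
      rcases hx with hx | hx <;> rcases hy with hy | hy <;> rcases hz2 with hz2 | hz2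
      · exact absurd (hx.trans hy.symm) hne
      · exact absurd (hx.trans hy.symm) hne
      · exact absurd (hx.trans hz2.symm) hne2
      · exact hz2.trans hy.symm
      · exact hz2.trans hy.symm
      · exact absurd (hx.trans hz2.symm) hne2
      · exact absurd (hx.trans hy.symm) hne
      · exact absurd (hx.trans hy.symm) hne
    have ha1 : a y.1 = 1 := by
      rcases hy with hy | hy <;> rw [hy]
      · exact hi
      · exact hj
    obtain ⟨z1, z2⟩ := z
    obtain ⟨y1, y2⟩ := y
    simp only at hyz ha1
    subst hyz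
    have : z2 = y2 := by
      apply Fin.ext
      have := z2.2
      have := y2.2
      omega
    rw [this]

end H57.SD
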