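import Pool.Agent.H57.SD.Def
import Pool.Agent.H62.Decomp.Multi

/-! # SD.MulB : complete multipartite graphs, the combinatorial condition (about 200 lines)

`hk'` is the chromatic number (proved in `MulA`, here a hypothesis). At most one `a i` equals `1` (`h1`). Let `U` be given with `MJ (G.induce Uᶜ) (k-2) 1`, `lam : Uᶜ → Fin (k-2)`. Two vertices of `Uᶜ` in different parts are adjacent. The classes `lam = j` with `j ≠ 0` are independent, so each meets at most one part. The class `0` has maximum degree at most one, so it meets at most two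
parts, and if it meets two parts it consists of exactly one vertex of each of them (a second vertex of one of the parts would give a vertex of degree two). So if the class `0` meets at most one part, at most `k - 2` parts meet `Uᶜ`, and two parts `i ≠ j` lie in `U`: `G.induce` of the union of these two parts is a member
(colouring by the index, surjective since `a i ≥ 1`) and is contained in `G.induce U`. If the class `0` is `{u, w}`, `u` in part `i`, `w` in part `j`, `i ≠ j`: the other classes meet at most `k - 3` parts. If they meet `i` or `j` or fewer than `k - 3` parts in all, again two parts lie in `U` entirely. Otherwise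
there is a part `l ≠ i, j` which lies in `U` and `U` contains the parts `i`, `j` except `u`, `w`. One of `a i`, `a j` is at least `2`, say `a i ≥ 2`. If also `a j ≥ 2`: the member with parts `l`, `i` is contained in `G.induce U`: part `l` to itself, part `i` to (part `i` minus `u`) and one vertex of (part `j` minus `w`) in the place of
`u` (all of them adjacent to all of part `l`). If `a j = 1`: the member with parts `l`, `j` (`a l` vertices and one vertex): the one vertex goes to a vertex of part `i` other than `u`. (A convenient uniform way: a member with parts `l`, `r` is contained in `G.induce U` as soon as part `l ⊆ U` and `U` contains at least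
`a r` vertices outside part `l`.) -/

namespace H57.SD

open SimpleGraph Pool.Agent.H62.Decomp H67.SG

/-- the pigeonhole argument -/
private theorem mulb_pigeon {V : Type*} (k : ℕ) (hk : 3 ≤ k) (ix : V → Fin k) (U : Set V)
    (F : V → Fin (k - 2)) (hF : ∀ x y, x ∉ U → y ∉ U → F x = F y → ix x ≠ ix y →
      (F x : ℕ) < 1 ∧ ∀ z, z ∉ U → F z = F x → ix x ≠ ix z → z = y) :
    (∃ l r, l ≠ r ∧ (∀ v, ix v = l → v ∈ U) ∧ ∀ v, ix v = r → v ∈ U) ∨
    ∃ l i j x y, l ≠ i ∧ l ≠ j ∧ i ≠ j ∧ ix x = i ∧ ix y = j ∧ (∀ v, ix v = l → v ∈ U) ∧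
      (∀ v, ix v = i → v ≠ x → v ∈ U) ∧ ∀ v, ix v = j → v ≠ y → v ∈ U := by
  classical
  set L : Finset (Fin k) := Finset.univ.filter (fun i => ∀ v, ix v = i → v ∈ U) with hL
  set N : Finset (Fin k) := Finset.univ.filter (fun i => ¬ ∀ v, ix v = i → v ∈ U) with hN
  have hcard : L.card + N.card = k := by
    rw [hL, hN, Finset.card_filter_add_card_filter_not, Finset.card_univ, Fintype.card_fin]
  by_cases h2 : 1 < L.card
  · left
    obtain ⟨l, hl, r, hr, hlr⟩ := Finset.one_lt_card.1 h2
    exact ⟨l, r, hlr, (Finset.mem_filter.1 hl).2, (Finset.mem_filter.1 hr).2⟩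
  right
  have hv : ∀ i : Fin k, ∃ v, i ∈ N → ix v = i ∧ v ∉ U := by
    intro i
    by_cases hi : i ∈ N
    · have h := (Finset.mem_filter.1 hi).2
      push Not at h
      obtain ⟨v, h1, h3⟩ := h
      exact ⟨v, fun _ => ⟨h1, h3⟩⟩
    · have hne : Nonempty V := by
        by_contra hcon
        have : N = ∅ := by
          rw [hN, Finset.filter_eq_empty_iff]
          intro i _ h
          exact h fun v => absurd ⟨v⟩ hcon
        rw [this, Finset.card_empty] at hcard
        omega
      exact ⟨Classical.arbitrary V, fun h => absurd h hi⟩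
  choose v hv using hv
  have huse : ∀ i ∈ N, ∀ j ∈ N, i ≠ j → F (v i) = F (v j) → (F (v i) : ℕ) < 1 ∧
      ∀ z, z ∉ U → F z = F (v i) → i ≠ ix z → z = v j := by
    intro i hi j hj hij hf
    have h := hF (v i) (v j) (hv i hi).2 (hv j hj).2 hf (by rw [(hv i hi).1, (hv j hj).1]; exact hij)
    rw [(hv i hi).1] at h
    exact h
  obtain ⟨i, hi, j, hj, hij, hfij⟩ := Finset.exists_ne_map_eq_of_card_lt_of_maps_to
    (s := N) (t := (Finset.univ : Finset (Fin (k - 2)))) (f := fun i => F (v i))
    (by rw [Finset.card_univ, Fintype.card_fin]; omega) (fun _ _ => Finset.mem_coe.2 (Finset.mem_univ _))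
  have hzero : ∀ x y : V, (F x : ℕ) < 1 → (F y : ℕ) < 1 → F x = F y := by
    intro x y hx hy
    apply Fin.ext
    omega
  -- the classes of the representatives
  have hinj : ∀ i ∈ N, ∀ j ∈ N, i ≠ j → F (v i) = F (v j) →
      Set.InjOn (fun i => F (v i)) ((N.erase i : Finset (Fin k)) : Set (Fin k)) := by
    intro i hi j hj hij hf m hm m' hm' hmm
    rw [Finset.mem_coe, Finset.mem_erase] at hm hm'
    by_contra hne
    have h1 := huse m hm.2 m' hm'.2 hne hmm
    have h3 := huse i hi j hj hij hf
    have h4 : F (v m) = F (v i) := hzero _ _ h1.1 h3.1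
    have h5 := h3.2 (v m) (hv m hm.2).2 h4 (by rw [(hv m hm.2).1]; exact hm.1.symm)
    have h6 : F (v m') = F (v i) := by rw [← h4]; exact hmm.symm
    have h7 := h3.2 (v m') (hv m' hm'.2).2 h6 (by rw [(hv m' hm'.2).1]; exact hm'.1.symm)
    apply hne
    have h8 := congrArg ix (h5.trans h7.symm)
    rwa [(hv m hm.2).1, (hv m' hm'.2).1] at h8
  have hclaim : ∀ i ∈ N, ∀ j ∈ N, i ≠ j → F (v i) = F (v j) → ∀ z, ix z = i → z ≠ v i →
      z ∈ U := by
    intro i hi j hj hij hf z hz hzi
    by_contra hzU
    have h1 := hinj i hi j hj hij hf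
    have h3 : (N.erase i).image (fun i => F (v i)) = Finset.univ := by
      apply Finset.eq_univ_of_card
      rw [Finset.card_image_of_injOn h1, Finset.card_erase_of_mem hi, Fintype.card_fin]
      have h4 := Finset.card_le_card (Finset.subset_univ ((N.erase i).image (fun i => F (v i))))
      rw [Finset.card_image_of_injOn h1, Finset.card_erase_of_mem hi, Finset.card_univ,
        Fintype.card_fin] at h4
      omega
    have h4 : F z ∈ (N.erase i).image (fun i => F (v i)) := by rw [h3]; exact Finset.mem_univ _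
    obtain ⟨m, hm, hmz⟩ := Finset.mem_image.1 h4
    rw [Finset.mem_erase] at hm
    have h5 := hF z (v m) hzU (hv m hm.2).2 hmz.symm (by rw [hz, (hv m hm.2).1]; exact hm.1.symm)
    have h6 := huse j hj i hi hij.symm hf.symm
    apply hzi
    exact h6.2 z hzU (hzero _ _ h5.1 h6.1) (by rw [hz]; exact hij.symm)
  have hL1 : 0 < L.card := by
    have h1 := hinj i hi j hj hij hfij
    have h4 := Finset.card_le_card (Finset.subset_univ ((N.erase i).image (fun i => F (v i))))
    rw [Finset.card_image_of_injOn h1, Finset.card_erase_of_mem hi, Finset.card_univ,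
      Fintype.card_fin] at h4
    omega
  obtain ⟨l, hl⟩ := Finset.card_pos.1 hL1
  have hln : l ∉ N := by
    intro h
    exact (Finset.mem_filter.1 h).2 (Finset.mem_filter.1 hl).2
  refine ⟨l, i, j, v i, v j, ?_, ?_, hij, (hv i hi).1, (hv j hj).1, (Finset.mem_filter.1 hl).2,
    hclaim i hi j hj hij hfij, hclaim j hj i hi hij.symm hfij.symm⟩
  · rintro rfl; exact hln hi
  · rintro rfl; exact hln hj

theorem multi_cond (k : ℕ) (hk : 3 ≤ k) (a : Fin k → ℕ) (ha : ∀ i, 1 ≤ a i)
    (hk' : (completeMultipartiteGraph (fun i => Fin (a i))).chromaticNumber = k)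
    (h1 : ∀ i j, i ≠ j → ¬ (a i = 1 ∧ a j = 1)) (U : Set ((i : Fin k) × Fin (a i)))
    (hU : MJ ((completeMultipartiteGraph (fun i => Fin (a i))).induce Uᶜ) (k - 2) 1) :
    ContainsMember (completeMultipartiteGraph (fun i => Fin (a i)))
      ((completeMultipartiteGraph (fun i => Fin (a i))).induce U) := by
  classical
  obtain ⟨lam, hlam⟩ := hU
  have hk0 : 0 < k - 2 := by omega
  obtain ⟨F, hFd⟩ : ∃ F : ((i : Fin k) × Fin (a i)) → Fin (k - 2), ∀ x (h : x ∈ Uᶜ),
      F x = lam ⟨x, h⟩ := by
    refine ⟨fun x => if h : x ∈ Uᶜ then lam ⟨x, h⟩ else ⟨0, hk0⟩, fun x h => ?_⟩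
    simp only [dif_pos h]
  have hF : ∀ x y, x ∉ U → y ∉ U → F x = F y → x.1 ≠ y.1 →
      (F x : ℕ) < 1 ∧ ∀ z, z ∉ U → F z = F x → x.1 ≠ z.1 → z = y := by
    intro x y hx hy hxy hne
    rw [hFd x hx, hFd y hy] at hxy
    have h := hlam ⟨x, hx⟩ ⟨y, hy⟩ hxy hne
    rw [hFd x hx]
    refine ⟨h.1, fun z hz hzx hxz => ?_⟩
    rw [hFd z hz] at hzx
    exact congrArg Subtype.val (h.2 ⟨z, hz⟩ hzx hxz)
  have hsecond : ∀ (j : Fin k) (y : (i : Fin k) × Fin (a i)), 2 ≤ a j → y.1 = j →
      ∃ z : (i : Fin k) × Fin (a i), z.1 = j ∧ z ≠ y := by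
    rintro j ⟨j', y⟩ hj rfl
    have : Nontrivial (Fin (a j')) := Fin.nontrivial_iff_two_le.2 hj
    obtain ⟨z, hz⟩ := exists_ne y
    refine ⟨⟨j', z⟩, rfl, fun h => hz ?_⟩
    rw [Sigma.mk.injEq] at h
    exact eq_of_heq h.2
  rcases mulb_pigeon k hk (fun v : (i : Fin k) × Fin (a i) => v.1) U F hF with
    ⟨l, r, hlr, hl, hr⟩ | ⟨l, i, j, x, y, hli, hlj, hij, hx, hy, hl, hi, hj⟩
  · apply member_of_map a ha U l r hlr id
    · rintro v (hv | hv)
      · exact hl v hv
      · exact hr v hv
    · intro v w _ _ h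
      exact h
    · intro v w hv hw
      rw [id, id, hv, hw]
      exact hlr
  · by_cases h2 : 2 ≤ a j
    · obtain ⟨z, hz, hzy⟩ := hsecond j y h2 hy
      exact member_swap a ha U i j l (Ne.symm hli) hij (Ne.symm hlj) x z hz (hj z hz hzy) hi hl hx
    · have h3 : 2 ≤ a i := by
        have h4 := ha i
        have h5 := ha j
        have h6 := h1 i j hij
        omega
      obtain ⟨z, hz, hzx⟩ := hsecond i x h3 hx
      exact member_swap a ha U j i l (Ne.symm hlj) hij.symm (Ne.symm hli) y z hz (hi z hz hzx) hj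
        hl hy

end H57.SD
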