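import Pool.Agent.H57.SD.NegL

/-! # SD.Neg : a necessary condition for the formula, all graphs G (about 50 lines)

For every `n₀` there is an even `n ≥ max n₀ 2` and the star `T` on `Fin n` (adjacent iff different and one of them is `0`; it is a tree, the vertex `0` has degree `n - 1`). `star_lower` contradicts `ramsey G T = (k - 2) * (n - 1) + classRamsey G T` (`G.chromaticNumber.toNat = k`). -/

namespace H57.SD

open SimpleGraph Pool.Agent.H62.Decomp H67.SG

theorem not_formula {V : Type} [Fintype V] (G : SimpleGraph V) (k : ℕ) (hk3 : 3 ≤ k)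
    (hk : G.chromaticNumber = k)
    (h : ∀ U : Set V, MJ (G.induce Uᶜ) (k - 2) 1 → ContainsMember G (G.induce U)) :
    ¬ SatisfiesFormula G := by
  classical
  rintro ⟨n₀, hn₀⟩
  have h2 : 2 ≤ 2 * (n₀ + 1) := by omega
  let r : Fin (2 * (n₀ + 1)) := ⟨0, by omega⟩
  have hT : (starGraph r).IsTree := isTree_starGraph r
  have hdeg : deg (starGraph r) r = 2 * (n₀ + 1) - 1 := by
    unfold deg dg
    have hs : (Finset.univ.filter (fun y => (starGraph r).Adj r y)) = Finset.univ.erase r := by
      ext y
      simp only [Finset.mem_filter, Finset.mem_univ, true_and, Finset.mem_erase, and_true]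
      rw [starGraph_adj_center_iff]
      exact ⟨fun h => h.symm, fun h => h.symm⟩
    have hs2 := congrArg Finset.card hs
    rw [Finset.card_erase_of_mem (Finset.mem_univ r), Finset.card_univ, Fintype.card_fin] at hs2
    convert hs2
  have h3 := star_lower G k hk3 hk h ⟨n₀ + 1, by omega⟩ h2 (starGraph r) hT ⟨r, hdeg⟩
  have h4 := hn₀ (2 * (n₀ + 1)) (by omega) (starGraph r) hT
  have h5 : G.chromaticNumber.toNat = k := by rw [hk]; rfl
  rw [h5] at h4
  omega

end H57.SD
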