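import Pool.Agent.H57.SD.MulA
import Pool.Agent.H57.SD.MulB
import Pool.Agent.H57.SD.Neg

/-! # SD.Multi : complete multipartite graphs (assembly) -/

namespace H57.SD

open SimpleGraph Pool.Agent.H62.Decomp H67.SG

theorem multi_iff (k : ℕ) (hk : 3 ≤ k) (a : Fin k → ℕ) (ha : ∀ i, 1 ≤ a i) :
    SatisfiesFormula (completeMultipartiteGraph (fun i => Fin (a i))) ↔ ∃ i j, i ≠ j ∧ a i = 1 ∧ a j = 1 := by
  constructor
  · intro h
    by_contra hc
    push Not at hc
    refine not_formula _ k hk (multi_chi k a ha) (fun U hU => ?_) h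
    exact multi_cond k hk a ha (multi_chi k a ha) (fun i j hij hh => hc i j hij hh.1 hh.2) U hU
  · rintro ⟨i, j, hij, hi, hj⟩
    exact multi_pos k hk a ha i j hij hi hj

end H57.SD
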