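import Pool.Agent.H67.SG.Ram
import Pool.Agent.H57.SD.Def

/-! # SD.NegL : a lower bound for stars with an even number of vertices, all graphs G (about 180 lines)

`star_lower`: let `n ≥ 2` be even and `T` a tree with a vertex of degree `n - 1`; `R = classRamsey G T`. `R ≥ 1` (on `Fin 0` no member: `k ≥ 3`, the classes of a surjective colouring are nonempty, so the induced graph has vertices; and `T` has vertices). By `Nat.notMem_of_lt_sInf` there is `C₀` on `Fin (R - 1)` without member and with
`T ⋢ C₀ᶜ`. Let `W = Fin (R-1) ⊕ (Fin n ⊕ (Fin (k-3) × Fin (n-1)))`; `C`: vertices of different blocks adjacent (`(j, x)`, `(j', y)` adjacent iff `j ≠ j'`), inside the first block `C₀`, inside `Fin n`: `a ≠ b` and `a / 2 = b / 2` (a perfect matching). A copy `f` of `G` in `C`: `U = {x | f x in the first block}`;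
`MJ (G.induce Uᶜ) (k-2) 1` with `lam` = `0` for the block `Fin n` and `j + 1` for `(j, _)`; so `ContainsMember G (G.induce U)` by `h`, and `G.induce U ⊑ C₀`, contradiction (`ContainsMember` is monotone: compose the copies). No blue `T`: the centre of `T` (degree `n-1`) would go to a vertex with at least `n - 1`
neighbours in `Cᶜ`. In the blocks other than the first one every vertex has `n - 2` of them; a vertex of the first block has its neighbours in `Cᶜ` inside the block, so has at least `n - 1` neighbours in `C₀ᶜ`, and then `T ⊑ C₀ᶜ` (all vertices of `T` are adjacent to the centre and to nothing else: `sum_deg`-free argument: `T` is a star; or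
map the copy itself: the image of `T` is connected and the first block is closed under `Cᶜ`-adjacency, so the whole copy lies in the first block). So `card W = (R - 1) + n + (k-3)(n-1) < ramsey G T` (`lt_ramsey`). -/

namespace H57.SD

open SimpleGraph Pool.Agent.H62.Decomp H67.SG

/-- the adjacency of the lower bound graph -/
private def nlAdj {r n k m : ℕ} (C₀ : SimpleGraph (Fin r)) :
    Fin r ⊕ (Fin n ⊕ (Fin k × Fin m)) → Fin r ⊕ (Fin n ⊕ (Fin k × Fin m)) → Prop
  | Sum.inl x, Sum.inl y => C₀.Adj x y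
  | Sum.inl _, Sum.inr _ => True
  | Sum.inr _, Sum.inl _ => True
  | Sum.inr (Sum.inl a), Sum.inr (Sum.inl b) => a ≠ b ∧ (a : ℕ) / 2 = (b : ℕ) / 2
  | Sum.inr (Sum.inl _), Sum.inr (Sum.inr _) => True
  | Sum.inr (Sum.inr _), Sum.inr (Sum.inl _) => True
  | Sum.inr (Sum.inr p), Sum.inr (Sum.inr q) => p.1 ≠ q.1

private def nlGraph {r : ℕ} (n k m : ℕ) (C₀ : SimpleGraph (Fin r)) :
    SimpleGraph (Fin r ⊕ (Fin n ⊕ (Fin k × Fin m))) where
  Adj := nlAdj C₀
  symm := ⟨by
    rintro (x | x | x) (y | y | y) h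
    · exact SimpleGraph.Adj.symm (G := C₀) h
    · trivial
    · trivial
    · trivial
    · exact ⟨h.1.symm, h.2.symm⟩
    · trivial
    · trivial
    · trivial
    · exact fun h1 => h h1.symm⟩
  loopless := ⟨by
    rintro (x | x | x) h
    · exact C₀.loopless.irrefl x h
    · exact h.1 rfl
    · exact h rfl⟩

/-- the class of a vertex outside of the first block -/
private def nlLam {r n k m : ℕ} : Fin r ⊕ (Fin n ⊕ (Fin k × Fin m)) → Fin (k + 1)
  | Sum.inl _ => 0
  | Sum.inr (Sum.inl _) => 0
  | Sum.inr (Sum.inr p) => p.1.succ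

private theorem nl_noG {V : Type} (G : SimpleGraph V) {r n k m : ℕ} (C₀ : SimpleGraph (Fin r))
    (h : ∀ U : Set V, MJ (G.induce Uᶜ) (k + 1) 1 → ContainsMember G (G.induce U))
    (hC : ¬ ContainsMember G C₀) : ¬ G ⊑ nlGraph n k m C₀ := by
  rintro ⟨φ⟩
  set U : Set V := {x | ∃ y, φ x = Sum.inl y} with hU
  have hMJ : MJ (G.induce Uᶜ) (k + 1) 1 := by
    refine ⟨fun x => nlLam (φ x.1), ?_⟩
    rintro ⟨x, hx⟩ ⟨y, hy⟩ hl hadj
    have hadj1 : (nlGraph n k m C₀).Adj (φ x) (φ y) := φ.toHom.map_adj hadj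
    have hx1 : ∀ a, φ x ≠ Sum.inl a := fun a ha => hx ⟨a, ha⟩
    have hy1 : ∀ a, φ y ≠ Sum.inl a := fun a ha => hy ⟨a, ha⟩
    change nlLam (φ x) = nlLam (φ y) at hl
    rcases hfx : φ x with a | a | a
    · exact absurd hfx (hx1 a)
    · rcases hfy : φ y with b | b | b
      · exact absurd hfy (hy1 b)
      · rw [hfx, hfy] at hadj1
        obtain ⟨hab, hab2⟩ := hadj1
        refine ⟨?_, ?_⟩
        · change ((nlLam (φ x) : Fin (k + 1)) : ℕ) < 1
          rw [hfx]
          exact Nat.zero_lt_one
        · rintro ⟨z, hz⟩ hzl hzadj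
          have hadj2 : (nlGraph n k m C₀).Adj (φ x) (φ z) := φ.toHom.map_adj hzadj
          have hz1 : ∀ a, φ z ≠ Sum.inl a := fun a ha => hz ⟨a, ha⟩
          change nlLam (φ z) = nlLam (φ x) at hzl
          rcases hfz : φ z with c | c | c
          · exact absurd hfz (hz1 c)
          · rw [hfx, hfz] at hadj2
            obtain ⟨hac, hac2⟩ := hadj2
            have hbc : b = c := by
              have h1 : (a : ℕ) ≠ b := fun h => hab (Fin.ext h)
              have h2 : (a : ℕ) ≠ c := fun h => hac (Fin.ext h)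
              apply Fin.ext
              omega
            apply Subtype.ext
            apply φ.injective
            change φ z = φ y
            rw [hfz, hfy, hbc]
          · rw [hfz, hfx] at hzl
            exact absurd hzl (Fin.succ_ne_zero _)
      · rw [hfx, hfy] at hl
        exact absurd hl.symm (Fin.succ_ne_zero _)
    · rcases hfy : φ y with b | b | b
      · exact absurd hfy (hy1 b)
      · rw [hfx, hfy] at hl
        exact absurd hl (Fin.succ_ne_zero _)
      · rw [hfx, hfy] at hl hadj1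
        exact absurd (Fin.succ_injective _ hl) hadj1
  obtain ⟨c, i, j, h1, h2, h3⟩ := h U hMJ
  refine hC ⟨c, i, j, h1, h2, h3.trans ?_⟩
  have hch : ∀ x : U, ∃ y, φ x.1 = Sum.inl y := fun x => x.2
  choose g hg using hch
  refine contained_of_map g ?_ ?_
  · intro x y hxy
    apply Subtype.ext
    apply φ.injective
    change φ x.1 = φ y.1
    rw [hg, hg, hxy]
  · intro x y hxy
    have h4 : (nlGraph n k m C₀).Adj (φ x.1) (φ y.1) := φ.toHom.map_adj hxy
    rw [hg, hg] at h4
    exact h4

private theorem nl_noT {r n k : ℕ} (C₀ : SimpleGraph (Fin r)) (hn : Even n) (hn2 : 2 ≤ n)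
    (T : SimpleGraph (Fin n)) (x₀ : Fin n) (hx₀ : deg T x₀ = n - 1) (hC : ¬ T ⊑ C₀ᶜ) :
    ¬ T ⊑ (nlGraph n k (n - 1) C₀)ᶜ := by
  classical
  rintro ⟨ψ⟩
  have hstar : ∀ v, v ≠ x₀ → T.Adj x₀ v := by
    have h1 : Finset.univ.filter (fun y => T.Adj x₀ y) ⊆ Finset.univ.erase x₀ := by
      intro v hv
      exact Finset.mem_erase.2 ⟨(Finset.mem_filter.1 hv).2.ne', Finset.mem_univ _⟩
    have h2 : (Finset.univ.filter (fun y => T.Adj x₀ y)).card = n - 1 := by
      rw [← hx₀]
      unfold deg dg
      congr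
    have h3 : (Finset.univ.erase x₀).card = n - 1 := by
      rw [Finset.card_erase_of_mem (Finset.mem_univ _), Finset.card_univ, Fintype.card_fin]
    have h4 := Finset.eq_of_subset_of_card_le h1 (by rw [h2, h3])
    intro v hv
    have h5 : v ∈ Finset.univ.erase x₀ := Finset.mem_erase.2 ⟨hv, Finset.mem_univ _⟩
    rw [← h4] at h5
    exact (Finset.mem_filter.1 h5).2
  have hne : ∀ v, v ≠ x₀ → ¬ (nlGraph n k (n - 1) C₀).Adj (ψ x₀) (ψ v) := fun v hv =>
    (ψ.toHom.map_adj (hstar v hv)).2
  rcases hf : ψ x₀ with a | a | a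
  · have hch : ∀ v, ∃ y, ψ v = Sum.inl y := by
      intro v
      by_cases hv : v = x₀
      · rw [hv]; exact ⟨a, hf⟩
      · have h1 := hne v hv
        rw [hf] at h1
        rcases hg : ψ v with b | b
        · exact ⟨b, rfl⟩
        · rw [hg] at h1
          exact absurd trivial h1
    choose g hg using hch
    refine hC (contained_of_map g ?_ ?_)
    · intro x y hxy
      apply ψ.injective
      change ψ x = ψ y
      rw [hg, hg, hxy]
    · intro x y hxy
      have h4 : (nlGraph n k (n - 1) C₀)ᶜ.Adj (ψ x) (ψ y) := ψ.toHom.map_adj hxy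
      rw [hg, hg, compl_adj] at h4
      rw [compl_adj]
      exact ⟨fun h => h4.1 (congrArg Sum.inl h), h4.2⟩
  · have hch : ∀ v, ∃ y, ψ v = Sum.inr (Sum.inl y) := by
      intro v
      by_cases hv : v = x₀
      · rw [hv]; exact ⟨a, hf⟩
      · have h1 := hne v hv
        rw [hf] at h1
        rcases hg : ψ v with b | b | b
        · rw [hg] at h1
          exact absurd trivial h1
        · exact ⟨b, rfl⟩
        · rw [hg] at h1
          exact absurd trivial h1
    choose g hg using hch
    have hinj : Function.Injective g := by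
      intro x y hxy
      apply ψ.injective
      change ψ x = ψ y
      rw [hg, hg, hxy]
    have hsur : Function.Surjective g := Finite.surjective_of_injective hinj
    obtain ⟨b, hb1, hb2⟩ : ∃ b : Fin n, a ≠ b ∧ (a : ℕ) / 2 = (b : ℕ) / 2 := by
      obtain ⟨t, ht⟩ := hn
      have ha := a.2
      by_cases h2 : (a : ℕ) % 2 = 0
      · refine ⟨⟨(a : ℕ) + 1, by omega⟩, fun h => ?_, ?_⟩
        · have := congrArg Fin.val h
          simp at this
        · change (a : ℕ) / 2 = ((a : ℕ) + 1) / 2
          omega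
      · refine ⟨⟨(a : ℕ) - 1, by omega⟩, fun h => ?_, ?_⟩
        · have := congrArg Fin.val h
          simp at this
          omega
        · change (a : ℕ) / 2 = ((a : ℕ) - 1) / 2
          omega
    obtain ⟨v, hv⟩ := hsur b
    have hvx : v ≠ x₀ := by
      rintro rfl
      have h1 := hg v
      rw [hf, hv] at h1
      exact hb1 (Sum.inl.inj (Sum.inr.inj h1))
    have h1 := hne v hvx
    rw [hf, hg, hv] at h1
    exact h1 ⟨hb1, hb2⟩
  · have hch : ∀ v, ∃ y, ψ v = Sum.inr (Sum.inr (a.1, y)) := by
      intro v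
      by_cases hv : v = x₀
      · rw [hv]; exact ⟨a.2, hf⟩
      · have h1 := hne v hv
        rw [hf] at h1
        rcases hg : ψ v with b | b | b
        · rw [hg] at h1
          exact absurd trivial h1
        · rw [hg] at h1
          exact absurd trivial h1
        · rw [hg] at h1
          have h2 : a.1 = b.1 := by
            by_contra h3
            exact h1 h3
          exact ⟨b.2, by rw [h2]⟩
    choose g hg using hch
    have hinj : Function.Injective g := by
      intro x y hxy
      apply ψ.injective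
      change ψ x = ψ y
      rw [hg, hg, hxy]
    have h1 := Fintype.card_le_of_injective g hinj
    rw [Fintype.card_fin, Fintype.card_fin] at h1
    omega

theorem star_lower {V : Type} [Fintype V] (G : SimpleGraph V) (k : ℕ) (hk3 : 3 ≤ k)
    (hk : G.chromaticNumber = k)
    (h : ∀ U : Set V, MJ (G.induce Uᶜ) (k - 2) 1 → ContainsMember G (G.induce U)) {n : ℕ} (hn : Even n)
    (hn2 : 2 ≤ n) (T : SimpleGraph (Fin n)) (hT : T.IsTree) (hstar : ∃ x, deg T x = n - 1) :
    (k - 2) * (n - 1) + classRamsey G T + 1 ≤ ramsey G T := by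
  classical
  obtain ⟨x₀, hx₀⟩ := hstar
  obtain ⟨k', rfl⟩ : ∃ k', k = k' + 3 := ⟨k - 3, by omega⟩
  have hk1 : G.chromaticNumber.toNat = k' + 3 := by
    rw [hk]
    rfl
  have hne := classRamsey_nonempty G (by omega) T
  have hR : 1 ≤ classRamsey G T := by
    by_contra h0
    have h1 : classRamsey G T = 0 := by omega
    have h2 := Nat.sInf_mem hne
    change classRamsey G T ∈ _ at h2
    rw [h1] at h2
    rcases h2 ⊥ with ⟨c, i, j, hs, -, ⟨φ⟩⟩ | ⟨⟨φ⟩⟩
    · obtain ⟨x, hx⟩ := hs i
      exact (φ ⟨x, Or.inl hx⟩).elim0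
    · exact (φ x₀).elim0
  have hlt : classRamsey G T - 1 < sInf {r : ℕ | ∀ C : SimpleGraph (Fin r), ContainsMember G C ∨ T ⊑ Cᶜ} := by
    change classRamsey G T - 1 < classRamsey G T
    omega
  have h1 := Nat.notMem_of_lt_sInf hlt
  obtain ⟨C₀, hC⟩ : ∃ C : SimpleGraph (Fin (classRamsey G T - 1)), ¬ (ContainsMember G C ∨ T ⊑ Cᶜ) := by
    by_contra hcon
    exact h1 fun C => by_contra fun h3 => hcon ⟨C, h3⟩
  rw [not_or] at hC
  obtain ⟨hC1, hC2⟩ := hC
  have h2 := lt_ramsey G T (nlGraph n k' (n - 1) C₀)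
    (nl_noG G C₀ (fun U hU => h U hU) hC1) (nl_noT C₀ hn hn2 T x₀ hx₀ hC2)
  rw [Fintype.card_sum, Fintype.card_sum, Fintype.card_prod, Fintype.card_fin, Fintype.card_fin,
    Fintype.card_fin, Fintype.card_fin] at h2
  have h3 : (k' + 3 - 2) * (n - 1) = k' * (n - 1) + (n - 1) := by
    rw [show k' + 3 - 2 = k' + 1 from rfl, Nat.succ_mul]
  rw [h3]
  omega

end H57.SD
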