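import Pool.Agent.H57.SD.Upper
import Pool.Agent.H57.SD.ContM
import Pool.Agent.H57.SD.ContS
import Pool.Agent.H57.SD.MemM
import Pool.Agent.H57.SD.MemS
import Pool.Agent.H57.SD.LowR
import Pool.Agent.H57.SD.LowC

/-! # SD.PartD : if B(G) has a member of maximum degree at most one, all large trees are optimal (about 80 lines)

`m = card V ≥ 1`, `s = surplus G` (`≥ 1`), `f`, `i` from `surplus_spec`. Upper bound for `ramsey`: `ramsey_le` and `upper (k-1) m s`: a graph `C` on `Fin ((k-1)(n-1) + s)` without blue `T` has `HasM` or `HasS`, so contains `G` (`cont_M`, `cont_S` with `q + 1 = k`). Upper bound for `classRamsey`: `class_le` and `upper 1 m s`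
(`1 * (n-1) + s`), `member_M`, `member_S`. Lower bounds: `LowR`, `LowC`. `formula_of_matching`: `(k-1)(n-1) + s = (k-2)(n-1) + (n - 1 + s)`. -/

namespace H57.SD

open SimpleGraph Pool.Agent.H62.Decomp H67.SG

theorem partD {V : Type} [Fintype V] (G : SimpleGraph V) (k : ℕ) (hk2 : 2 ≤ k)
    (hk : G.chromaticNumber = k) (hMJ : MJ G (k - 1) 1) :
    ∃ n₀ : ℕ, ∀ n : ℕ, n₀ ≤ n → ∀ T : SimpleGraph (Fin n), T.IsTree →
      ramsey G T = (k - 1) * (n - 1) + surplus G ∧ classRamsey G T = n - 1 + surplus G := by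
  classical
  have hne : Nonempty V := by
    by_contra hV
    rw [not_nonempty_iff] at hV
    have h0 : G.chromaticNumber ≤ (0 : ℕ) := by
      rw [chromaticNumber_le_iff_colorable]
      exact ⟨⟨fun x => hV.elim x, fun {x} => hV.elim x⟩⟩
    rw [hk] at h0
    have h1 : k ≤ 0 := by exact_mod_cast h0
    omega
  obtain ⟨f, i, hfi⟩ := surplus_spec G k hk2 hk
  have hs := surplus_pos G k hk2 hk
  have hm : 1 ≤ Fintype.card V := Fintype.card_pos
  obtain ⟨n1, h1⟩ := upper (k - 1) (Fintype.card V) (surplus G) (by omega) hm hs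
  obtain ⟨n2, h2⟩ := upper 1 (Fintype.card V) (surplus G) le_rfl hm hs
  refine ⟨max (max n1 n2) (Fintype.card V), fun n hn T hT => ⟨?_, ?_⟩⟩
  · refine le_antisymm (ramsey_le G T _ fun C => ?_)
      (ramsey_low G k hk2 hk T hT (le_trans (le_max_right _ _) hn))
    by_cases hM : HasM (k - 1) (Fintype.card V) C
    · exact Or.inl (cont_M G (k - 1) hMJ C hM)
    by_cases hS : HasS (k - 1) (Fintype.card V) (surplus G) C
    · left
      obtain ⟨q, rfl⟩ : ∃ q, k = q + 1 := ⟨k - 1, by omega⟩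
      exact cont_S G q (surplus G) f i hfi.le C hS
    · exact Or.inr (h1 n (le_trans (le_trans (le_max_left _ _) (le_max_left _ _)) hn) T hT (Fin _) C
        (by simp) hM hS)
  · refine le_antisymm (class_le G T _ fun C => ?_)
      (class_low G k hk2 hk T hT (le_trans (le_max_right _ _) hn))
    by_cases hM : HasM 1 (Fintype.card V) C
    · exact Or.inl (member_M G k hk2 hk hMJ C hM)
    by_cases hS : HasS 1 (Fintype.card V) (surplus G) C
    · exact Or.inl (member_S G k hk2 hk (surplus G) f i hfi.le C hS)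
    · exact Or.inr (h2 n (le_trans (le_trans (le_max_right _ _) (le_max_left _ _)) hn) T hT (Fin _) C
        (by simp) hM hS)

theorem formula_of_matching {V : Type} [Fintype V] (G : SimpleGraph V) (k : ℕ) (hk2 : 2 ≤ k)
    (hk : G.chromaticNumber = k) (hMJ : MJ G (k - 1) 1) : SatisfiesFormula G := by
  obtain ⟨n₀, h⟩ := partD G k hk2 hk hMJ
  refine ⟨n₀, fun n hn T hT => ?_⟩
  obtain ⟨h1, h2⟩ := h n hn T hT
  rw [h1, h2, hk, ENat.toNat_natCast]
  obtain ⟨q, rfl⟩ : ∃ q, k = q + 2 := ⟨k - 2, by omega⟩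
  have e1 : q + 2 - 1 = q + 1 := by omega
  have e2 : q + 2 - 2 = q := by omega
  rw [e1, e2]
  ring

end H57.SD
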