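import Pool.Agent.H67.SG.Box
import Pool.Agent.H57.SD.Def

/-! # SD.Pop : a popular set of s vertices and the box theorem (about 180 lines)

`c₁ = κ / 2^L` (there are at most `2^L` subsets of `E`), `δ = c₁ / (2 (q^2 + 1))`, `c = c₁ / (2 (q+1)^q)`, `n₀ ≥ N₀` of `box q m c`.
Every `z ∈ 𝒵` has a set `S z ⊆ E` with `s` elements, all joined in `C` to all `z i`. Pigeonhole over the powerset of `E`: some `S`
is `S z` for at least `c₁ n^q` elements `z ∈ 𝒵`; call this set `𝒵₁`. For `i ≠ j` the number of `z ∈ 𝒵` with `¬ C.Adj (z i) (z j)` is at most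
`δ n^q`: `z` is determined by `z i`, `z j` and the other `q - 2` values; for given `z i = x ∈ P i` there are at most `δ n` values
`z j ∈ P j` not adjacent to `x`, all other values lie in sets with at most `n` elements. (Formally: the tuples are in the image/fibres of
`Fintype.piFinset P`; e.g. `Σ_{x ∈ P i} nd C x (P j) · n^(q-2)`; it is convenient to bound the card of
`{z ∈ piFinset P | ¬ C.Adj (z i) (z j)}` by injecting into a product or by `Finset.card_le_...` with fibres over `z i`.)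
So `E' = {z ∈ 𝒵₁ | ∀ i j, i ≠ j → C.Adj (z i) (z j)}` has at least `(c₁ - q^2 δ) n^q ≥ (c₁/2) n^q ≥ c (card W)^q` elements (`card W ≤ (q+1) n`).
`box q m c` gives `Z : Fin q → Finset W`, `|Z i| = m`, all tuples of which are in `E'`. For `x ∈ S` and `z ∈ Z i` choose a tuple
through `z` (all `Z j` are nonempty, `m ≥ 1`): `C.Adj x z`; for `y ∈ Z j`, `z ∈ Z l`, `j ≠ l` a tuple through both. -/

namespace H57.SD

open SimpleGraph Pool.Agent.H62.Decomp H67.SG

open Classical in
/-- the tuples with a non-adjacent pair at the places `i`, `j` -/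
private noncomputable def bad {W : Type} [Fintype W] {q : ℕ} (C : SimpleGraph W) (P : Fin q → Finset W)
    (p : Fin q × Fin q) : Finset (Fin q → W) :=
  (Fintype.piFinset P).filter (fun z => ¬ C.Adj (z p.1) (z p.2))

open Classical in
private theorem bad_card {W : Type} [Fintype W] {q n : ℕ} (C : SimpleGraph W) (P : Fin q → Finset W)
    {δ : ℝ} (hδ : 0 ≤ δ) (hP : ∀ i, (P i).card ≤ n)
    (hn : ∀ i j, i ≠ j → ∀ x ∈ P i, (nd C x (P j) : ℝ) ≤ δ * n) {i j : Fin q} (hij : i ≠ j) :
    ((bad C P (i, j)).card : ℝ) ≤ δ * (n : ℝ) ^ q := by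
  have hq2 : 2 ≤ q := by
    have h1 := i.isLt
    have h2 := j.isLt
    have h3 : (i : ℕ) ≠ j := fun h => hij (Fin.ext h)
    omega
  -- the fibre over `x`
  let F : W → Fin q → Finset W := fun x =>
    Function.update (Function.update P i {x}) j ((P j).filter (fun y => ¬ C.Adj x y))
  have hsub : bad C P (i, j) ⊆ (P i).biUnion (fun x => Fintype.piFinset (F x)) := by
    intro z hz
    simp only [bad, Finset.mem_filter, Fintype.mem_piFinset] at hz
    obtain ⟨hz1, hz2⟩ := hz
    rw [Finset.mem_biUnion]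
    refine ⟨z i, hz1 i, ?_⟩
    rw [Fintype.mem_piFinset]
    intro l
    by_cases hlj : l = j
    · subst hlj
      simp only [F, Function.update_self, Finset.mem_filter]
      exact ⟨hz1 l, hz2⟩
    · by_cases hli : l = i
      · subst hli
        simp only [F]
        rw [Function.update_of_ne hlj, Function.update_self]
        exact Finset.mem_singleton_self _
      · simp only [F]
        rw [Function.update_of_ne hlj, Function.update_of_ne hli]
        exact hz1 l
  have hF : ∀ x ∈ P i, ((Fintype.piFinset (F x)).card : ℝ) ≤ δ * n * (n : ℝ) ^ (q - 2) := by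
    intro x hx
    rw [Fintype.card_piFinset]
    push_cast
    rw [← Finset.mul_prod_erase Finset.univ _ (Finset.mem_univ j)]
    have hi : i ∈ (Finset.univ : Finset (Fin q)).erase j :=
      Finset.mem_erase.mpr ⟨hij, Finset.mem_univ _⟩
    rw [← Finset.mul_prod_erase _ _ hi]
    have h1 : ((F x j).card : ℝ) ≤ δ * n := by
      have h := hn i j hij x hx
      simpa only [F, Function.update_self, nd] using h
    have h2 : ((F x i).card : ℝ) = 1 := by
      simp only [F]
      rw [Function.update_of_ne hij, Function.update_self]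
      simp
    have h3 : ∏ l ∈ ((Finset.univ : Finset (Fin q)).erase j).erase i, ((F x l).card : ℝ) ≤
        (n : ℝ) ^ (q - 2) := by
      have hcard : (((Finset.univ : Finset (Fin q)).erase j).erase i).card = q - 2 := by
        rw [Finset.card_erase_of_mem hi, Finset.card_erase_of_mem (Finset.mem_univ j), Finset.card_univ,
          Fintype.card_fin]
        omega
      rw [← hcard, ← Finset.prod_const]
      refine Finset.prod_le_prod (fun _ _ => Nat.cast_nonneg _) ?_
      intro l hl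
      rw [Finset.mem_erase, Finset.mem_erase] at hl
      simp only [F]
      rw [Function.update_of_ne hl.2.1, Function.update_of_ne hl.1]
      exact_mod_cast hP l
    rw [h2, one_mul]
    exact mul_le_mul h1 h3 (Finset.prod_nonneg (fun _ _ => Nat.cast_nonneg _)) (by positivity)
  have h4 : ((bad C P (i, j)).card : ℝ) ≤ ∑ x ∈ P i, ((Fintype.piFinset (F x)).card : ℝ) := by
    have h := (Finset.card_le_card hsub).trans Finset.card_biUnion_le
    exact_mod_cast h
  refine h4.trans ((Finset.sum_le_sum hF).trans ?_)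
  rw [Finset.sum_const, nsmul_eq_mul]
  have h5 : ((P i).card : ℝ) ≤ n := by exact_mod_cast hP i
  have h6 : (n : ℝ) ^ q = n * n * (n : ℝ) ^ (q - 2) := by
    obtain ⟨r, rfl⟩ : ∃ r, q = r + 2 := ⟨q - 2, by omega⟩
    simp only [Nat.add_sub_cancel]
    ring
  calc ((P i).card : ℝ) * (δ * n * (n : ℝ) ^ (q - 2)) ≤ n * (δ * n * (n : ℝ) ^ (q - 2)) :=
        mul_le_mul_of_nonneg_right h5 (by positivity)
    _ = δ * (n : ℝ) ^ q := by rw [h6]; ring

open Classical in
theorem popular (q m s L : ℕ) (hq : 1 ≤ q) (hm : 1 ≤ m) (κ : ℝ) (hκ : 0 < κ) :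
    ∃ δ : ℝ, 0 < δ ∧ ∃ n₀ : ℕ, ∀ n : ℕ, n₀ ≤ n → ∀ (W : Type) [Fintype W] (C : SimpleGraph W)
      (P : Fin q → Finset W) (E : Finset W) (Y : Set (Fin q → W)),
      n ≤ Fintype.card W → Fintype.card W ≤ (q + 1) * n → (∀ i, (P i).card ≤ n) →
      (∀ i j, i ≠ j → ∀ x ∈ P i, (nd C x (P j) : ℝ) ≤ δ * n) → E.card ≤ L →
      (∀ z ∈ Y, (∀ i, z i ∈ P i) ∧ s ≤ (E.filter (fun x => ∀ i, C.Adj x (z i))).card) →
      κ * (n : ℝ) ^ q ≤ (Y.ncard : ℝ) → HasS q m s C := by
  set c₁ : ℝ := κ / 2 ^ L with hc₁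
  have hc₁0 : 0 < c₁ := by positivity
  have hqq : (0 : ℝ) < (q : ℝ) ^ 2 + 1 := by positivity
  set c : ℝ := c₁ / (2 * ((q : ℝ) + 1) ^ q) with hc
  have hc0 : 0 < c := by positivity
  obtain ⟨N₀, hbox⟩ := box q m c hc0
  refine ⟨c₁ / (2 * ((q : ℝ) ^ 2 + 1)), by positivity, N₀, ?_⟩
  set δ : ℝ := c₁ / (2 * ((q : ℝ) ^ 2 + 1)) with hδ
  have hδ0 : 0 < δ := by positivity
  intro n hn W _ C P E Y hW1 hW2 hP hnd hE hY hYc
  have hnq : (0 : ℝ) ≤ (n : ℝ) ^ q := by positivity
  -- the sets `S z`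
  have hS : ∀ z : Fin q → W, ∃ S : Finset W, S ⊆ E ∧ (z ∈ Y → S.card = s ∧ ∀ x ∈ S, ∀ i, C.Adj x (z i)) := by
    intro z
    by_cases hz : z ∈ Y
    · obtain ⟨S, hS1, hS2⟩ := Finset.exists_subset_card_eq (hY z hz).2
      refine ⟨S, hS1.trans (Finset.filter_subset _ _), fun _ => ⟨hS2, fun x hx => ?_⟩⟩
      exact (Finset.mem_filter.mp (hS1 hx)).2
    · exact ⟨∅, Finset.empty_subset _, fun h => absurd h hz⟩
  choose S hSE hSY using hS
  have hYfin : Y.Finite := Set.toFinite _
  set 𝒵 : Finset (Fin q → W) := hYfin.toFinset with h𝒵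
  have hmem : ∀ z, z ∈ 𝒵 ↔ z ∈ Y := fun z => by rw [h𝒵, Set.Finite.mem_toFinset]
  have hcard : (𝒵.card : ℝ) = Y.ncard := by rw [Set.ncard_eq_toFinset_card _ hYfin]
  -- pigeonhole
  have hmap : ∀ z ∈ 𝒵, S z ∈ E.powerset := fun z _ => Finset.mem_powerset.mpr (hSE z)
  have hb : (E.powerset).card • (c₁ * (n : ℝ) ^ q) ≤ (𝒵.card : ℝ) := by
    rw [hcard, nsmul_eq_mul, Finset.card_powerset]
    refine le_trans ?_ hYc
    push_cast
    have h1 : (2 : ℝ) ^ E.card ≤ 2 ^ L := pow_le_pow_right₀ (by norm_num) hE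
    calc (2 : ℝ) ^ E.card * (c₁ * (n : ℝ) ^ q) ≤ 2 ^ L * (c₁ * (n : ℝ) ^ q) :=
          mul_le_mul_of_nonneg_right h1 (by positivity)
      _ = κ * (n : ℝ) ^ q := by
          rw [hc₁]
          field_simp
  obtain ⟨S₀, -, hS₀⟩ := Finset.exists_le_card_fiber_of_nsmul_le_card_of_maps_to hmap
    ⟨∅, Finset.empty_mem_powerset _⟩ hb
  -- the good tuples
  set E' : Finset (Fin q → W) :=
    (𝒵.filter (fun z => S z = S₀)).filter (fun z => ∀ i j, i ≠ j → C.Adj (z i) (z j)) with hE'
  have hcov : 𝒵.filter (fun z => S z = S₀) ⊆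
      E' ∪ ((Finset.univ : Finset (Fin q)).offDiag).biUnion (bad C P) := by
    intro z hz
    by_cases h : ∀ i j, i ≠ j → C.Adj (z i) (z j)
    · exact Finset.mem_union_left _ (Finset.mem_filter.mpr ⟨hz, h⟩)
    · push Not at h
      obtain ⟨i, j, hij, hadj⟩ := h
      refine Finset.mem_union_right _ (Finset.mem_biUnion.mpr ⟨(i, j), ?_, ?_⟩)
      · rw [Finset.mem_offDiag]
        exact ⟨Finset.mem_univ _, Finset.mem_univ _, hij⟩
      · rw [bad, Finset.mem_filter, Fintype.mem_piFinset]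
        exact ⟨(hY z ((hmem z).mp (Finset.mem_filter.mp hz).1)).1, hadj⟩
  have hbadsum : ((((Finset.univ : Finset (Fin q)).offDiag).biUnion (bad C P)).card : ℝ) ≤
      c₁ / 2 * (n : ℝ) ^ q := by
    have h1 : ((((Finset.univ : Finset (Fin q)).offDiag).biUnion (bad C P)).card : ℝ) ≤
        ∑ p ∈ (Finset.univ : Finset (Fin q)).offDiag, ((bad C P p).card : ℝ) := by
      exact_mod_cast Finset.card_biUnion_le
    refine h1.trans ?_
    have h2 : ∀ p ∈ (Finset.univ : Finset (Fin q)).offDiag, ((bad C P p).card : ℝ) ≤ δ * (n : ℝ) ^ q := by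
      rintro ⟨i, j⟩ hp
      rw [Finset.mem_offDiag] at hp
      exact bad_card C P hδ0.le hP hnd hp.2.2
    refine (Finset.sum_le_sum h2).trans ?_
    rw [Finset.sum_const, nsmul_eq_mul, Finset.offDiag_card, Finset.card_univ, Fintype.card_fin]
    have h3 : ((q * q - q : ℕ) : ℝ) ≤ (q : ℝ) ^ 2 + 1 := by
      have h : (q * q - q : ℕ) ≤ q ^ 2 + 1 := by
        rw [pow_two]
        omega
      exact_mod_cast h
    calc ((q * q - q : ℕ) : ℝ) * (δ * (n : ℝ) ^ q) ≤ ((q : ℝ) ^ 2 + 1) * (δ * (n : ℝ) ^ q) :=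
          mul_le_mul_of_nonneg_right h3 (by positivity)
      _ = c₁ / 2 * (n : ℝ) ^ q := by
          rw [hδ]
          field_simp
  have hE'card : c₁ / 2 * (n : ℝ) ^ q ≤ E'.card := by
    have h1 : ((𝒵.filter (fun z => S z = S₀)).card : ℝ) ≤
        E'.card + (((Finset.univ : Finset (Fin q)).offDiag).biUnion (bad C P)).card := by
      exact_mod_cast (Finset.card_le_card hcov).trans (Finset.card_union_le _ _)
    linarith
  have hlow : c * (Fintype.card W : ℝ) ^ q ≤ ((E' : Set (Fin q → W)).ncard : ℝ) := by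
    rw [Set.ncard_coe_finset]
    refine le_trans ?_ hE'card
    have h1 : (Fintype.card W : ℝ) ≤ ((q : ℝ) + 1) * n := by exact_mod_cast hW2
    have h2 : (Fintype.card W : ℝ) ^ q ≤ (((q : ℝ) + 1) * n) ^ q :=
      pow_le_pow_left₀ (Nat.cast_nonneg _) h1 q
    calc c * (Fintype.card W : ℝ) ^ q ≤ c * (((q : ℝ) + 1) * n) ^ q :=
          mul_le_mul_of_nonneg_left h2 hc0.le
      _ = c₁ / 2 * (n : ℝ) ^ q := by
          rw [hc, mul_pow]
          field_simp
  obtain ⟨Z, hZ1, hZ2⟩ := hbox W (E' : Set (Fin q → W)) (hn.trans hW1) hlow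
  have hZne : ∀ i, ∃ z, z ∈ Z i := fun i =>
    Finset.card_pos.mp (by rw [hZ1 i]; exact hm)
  choose g hg using hZne
  have hgood : ∀ f : Fin q → W, (∀ i, f i ∈ Z i) →
      f ∈ Y ∧ S f = S₀ ∧ ∀ i j, i ≠ j → C.Adj (f i) (f j) := by
    intro f hf
    have h := hZ2 f hf
    rw [Finset.mem_coe, hE', Finset.mem_filter, Finset.mem_filter, hmem] at h
    exact ⟨h.1.1, h.1.2, h.2⟩
  refine ⟨S₀, Z, ?_, hZ1, ?_, ?_⟩
  · obtain ⟨h1, h2, -⟩ := hgood g hg
    rw [← h2]
    exact (hSY g h1).1
  · intro j z hz x hx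
    have hf : ∀ i, Function.update g j z i ∈ Z i := by
      intro i
      by_cases hij : i = j
      · subst hij
        rw [Function.update_self]
        exact hz
      · rw [Function.update_of_ne hij]
        exact hg i
    obtain ⟨h1, h2, -⟩ := hgood _ hf
    have h3 := (hSY _ h1).2 x (by rw [h2]; exact hx) j
    rwa [Function.update_self] at h3
  · intro j l hjl y hy z hz
    have hf : ∀ i, Function.update (Function.update g j y) l z i ∈ Z i := by
      intro i
      by_cases hil : i = l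
      · subst hil
        rw [Function.update_self]
        exact hz
      · rw [Function.update_of_ne hil]
        by_cases hij : i = j
        · subst hij
          rw [Function.update_self]
          exact hy
        · rw [Function.update_of_ne hij]
          exact hg i
    obtain ⟨-, -, h3⟩ := hgood _ hf
    have h4 := h3 j l hjl
    rw [Function.update_of_ne hjl, Function.update_self, Function.update_self] at h4
    exact h4

end H57.SD
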