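import Pool.Agent.H57.SD.UpperE

/-! # SD.Upper : the upper bound (about 40 lines)

Choose an embedding `f` of a type with exactly `q (n-1) + s` elements (`Fin (q (n-1) + s)`) into `W`; apply `upper_exact` to `C.comap f`; `HasM.comap`, `HasS.comap`, `tree_comap` of `Def`. -/

namespace H57.SD

open SimpleGraph Pool.Agent.H62.Decomp H67.SG

theorem upper (q m s : ℕ) (hq : 1 ≤ q) (hm : 1 ≤ m) (hs : 1 ≤ s) : ∃ n₀ : ℕ, ∀ n : ℕ, n₀ ≤ n →
    ∀ T : SimpleGraph (Fin n), T.IsTree → ∀ (W : Type) [Fintype W] (C : SimpleGraph W),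
      q * (n - 1) + s ≤ Fintype.card W → ¬ HasM q m C → ¬ HasS q m s C → T ⊑ Cᶜ := by
  obtain ⟨n₀, h⟩ := upper_exact q m s hq hm hs
  refine ⟨n₀, fun n hn T hT W _ C hc hM hS => ?_⟩
  obtain ⟨f⟩ : Nonempty (Fin (q * (n - 1) + s) ↪ W) :=
    Function.Embedding.nonempty_of_card_le (by rw [Fintype.card_fin]; exact hc)
  exact tree_comap f (h n hn T hT _ (C.comap f) (Fintype.card_fin _) (fun hh => hM hh.comap)
    (fun hh => hS hh.comap))

end H57.SD
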