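import Pool.Agent.H57.SD.Def

/-! # SD.UpperK : m K_2 + K_(m,…,m) inside K_(m,…,m) (about 60 lines)

From the `q + 1` parts `P` take `P 0` and `P (Fin.last q)`, enumerated by `Fin m` (`a`, `b`), as the `m` edges (index `i = 0`), and `Z j = P j.castSucc` for the others. `a x ≠ b y` because they are adjacent in `C`. -/

namespace H57.SD

open SimpleGraph Pool.Agent.H62.Decomp H67.SG

theorem hasM_of_hasK {W : Type} [Fintype W] (C : SimpleGraph W) (q m : ℕ) (hq : 1 ≤ q)
    (h : HasK (q + 1) m C Finset.univ) : HasM q m C := by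
  obtain ⟨P, -, hc, hadj⟩ := h
  have i : Fin q := ⟨0, hq⟩
  have hne : ∀ j : Fin q, j.castSucc ≠ Fin.last q := fun j => (Fin.castSucc_lt_last j).ne
  refine ⟨i, fun x => (((P i.castSucc).equivFinOfCardEq (hc i.castSucc)).symm x : W),
    fun x => (((P (Fin.last q)).equivFinOfCardEq (hc (Fin.last q))).symm x : W),
    fun j => P j.castSucc, ?_, ?_, ?_, ?_, fun j _ => hc _, ?_, ?_⟩
  · intro x y h
    exact Equiv.injective _ (Subtype.ext h)
  · intro x y h
    exact Equiv.injective _ (Subtype.ext h)
  · intro x y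
    exact (hadj _ _ (hne i) _ (Subtype.property _) _ (Subtype.property _)).ne
  · intro x
    exact hadj _ _ (hne i) _ (Subtype.property _) _ (Subtype.property _)
  · intro j hj z hz x
    refine ⟨hadj _ _ (fun h => hj (Fin.castSucc_injective q h).symm) _ (Subtype.property _) _ hz, ?_⟩
    exact hadj _ _ (hne j).symm _ (Subtype.property _) _ hz
  · intro j l _ _ hjl y hy z hz
    exact hadj _ _ (fun h => hjl (Fin.castSucc_injective q h)) _ hy _ hz

end H57.SD
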