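import Pool.Agent.H67.SG.Stab
import Pool.Agent.H57.SD.Asg
import Pool.Agent.H57.SD.Bad
import Pool.Agent.H57.SD.Cover
import Pool.Agent.H57.SD.Fin1
import Pool.Agent.H57.SD.UpperK

/-! # SD.UpperE : the upper bound for exactly q (n-1) + s vertices (about 300 lines)

`τ = 1 / (32 (m + 1))`. `bad_bound` gives `L₀`, `δ₁`, `n₁`. `L = L₀ + 2 m q`. `popular q m s L (1 / 2^q)` gives `δ₂`, `n₂`. `δ = min` of `δ₁`, `δ₂`, `1 / (1000 (q+1) (m+1))`. `stab q` for `m`, `δ` gives `ε`, `n₃`. Let `n` be large, suppose no blue `T`, no `HasM`, no `HasS`.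
`S = univ`: `(q - ε) n ≤ q (n-1) + s`; no `HasK (q+1) m C univ` (`hasM_of_hasK`). So `P` (disjoint). `e = ⌊δ n⌋₊`: `n ≤ |P i| + e`, `dg C x (P i) ≤ e`, `nd C x (P j) ≤ e`. `t = ⌈τ n⌉₊`. `B` = set of `x` with `τ n ≤ dg C x (P i)` for all `i`; `|B| ≤ L₀`;
`B` is disjoint from all `P i` (`e < τ n`). For `x ∉ B` let `c x = i` if `x ∈ P i`, otherwise some `i` with `dg C x (P i) < τ n ≤ t`. `V i = {x ∉ B | c x = i}`; for `y ∈ V i`, `j ≠ i`: `nd C y (P j) ≤ g = 2 (t + 2 e + 1)` (`asg_one`, or `≤ e` if `y ∈ P i`).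
`cover_of_noM` (`2 m g + q m e + e + m ≤ n` since `4 m τ ≤ 1/8`): `X i ⊆ V i`. `R i = V i \ X i` completely blue, so `|R i| ≤ n - 1` (`emb_clique`). `E = B ∪ ⋃ X i`, `|E| ≤ L`; `W` is the disjoint union of `E` and the `R i`. `d i = n - 1 - |R i|`, so `|E| = s + Σ d i`.
`few_rich` for `R i`, `E`, `d i`: the set `Z i` of `z ∈ R i` with `nd C z E ≥ d i + 1` has at most `K = 2^L · 2 (L+1)` elements. `Y` = set of tuples `z` with `z i ∈ P i \ X i \ Z i` for all `i` (`P i \ X i ⊆ R i`); `|P i \ X i \ Z i| ≥ n - e - 2 m - K ≥ n / 2`, so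
`|Y| ≥ (n/2)^q`. For `z ∈ Y` at most `Σ nd C (z i) E ≤ Σ d i` elements of `E` are not adjacent to some `z i`, so at least `|E| - Σ d i = s` are adjacent to all. `popular` gives `HasS q m s C`, contradiction. -/

namespace H57.SD

open SimpleGraph Pool.Agent.H62.Decomp H67.SG

/-- numerical facts for large `n` -/
theorem upper_num (q m L K s : ℕ) (τ δ : ℝ) (hτ : τ = 1 / (32 * ((m : ℝ) + 1))) (hδ0 : 0 < δ)
    (hδ : δ ≤ 1 / (1000 * ((q : ℝ) + 1) * ((m : ℝ) + 1))) (n : ℕ)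
    (hn : 100 * (m + 1) + 6 * L + 8 * K + s ≤ n) :
    4 * (⌈τ * n⌉₊ + 3 * ⌊δ * n⌋₊ + 3) ≤ n ∧
    2 * m * (2 * (⌈τ * n⌉₊ + 2 * ⌊δ * n⌋₊ + 1)) + q * m * ⌊δ * n⌋₊ + ⌊δ * n⌋₊ + m ≤ n ∧
    2 * (⌊δ * n⌋₊ + 2 * m + K) ≤ n ∧ δ * n < τ * n := by
  have hnR : (100 * ((m : ℝ) + 1) + 6 * L + 8 * K + s) ≤ n := by exact_mod_cast hn
  have hm0 : (0 : ℝ) ≤ m := Nat.cast_nonneg m
  have hq0 : (0 : ℝ) ≤ q := Nat.cast_nonneg q
  have hL0 : (0 : ℝ) ≤ L := Nat.cast_nonneg L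
  have hK0 : (0 : ℝ) ≤ K := Nat.cast_nonneg K
  have hs0 : (0 : ℝ) ≤ s := Nat.cast_nonneg s
  have hn0 : (0 : ℝ) < n := by nlinarith
  have hτ0 : 0 < τ := by rw [hτ]; positivity
  have hmτ : ((m : ℝ) + 1) * τ = 1 / 32 := by
    rw [hτ]; field_simp
  have hδm : ((q : ℝ) + 1) * ((m : ℝ) + 1) * δ ≤ 1 / 1000 := by
    have h1 : (0 : ℝ) < ((q : ℝ) + 1) * ((m : ℝ) + 1) := by positivity
    have h2 : ((q : ℝ) + 1) * ((m : ℝ) + 1) * (1 / (1000 * ((q : ℝ) + 1) * ((m : ℝ) + 1))) = 1 / 1000 := by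
      field_simp
    calc ((q : ℝ) + 1) * ((m : ℝ) + 1) * δ ≤ ((q : ℝ) + 1) * ((m : ℝ) + 1) * (1 / (1000 * ((q : ℝ) + 1) * ((m : ℝ) + 1))) :=
          mul_le_mul_of_nonneg_left hδ h1.le
      _ = 1 / 1000 := h2
  have hδm' : ((m : ℝ) + 1) * δ ≤ 1 / 1000 := by
    have : ((m : ℝ) + 1) * δ ≤ ((q : ℝ) + 1) * ((m : ℝ) + 1) * δ := by
      have h3 : 0 ≤ (q : ℝ) * (((m : ℝ) + 1) * δ) := by positivity
      nlinarith
    linarith
  have hqm : (q : ℝ) * m * δ ≤ 1 / 1000 := by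
    have h3 : (q : ℝ) * m * δ ≤ ((q : ℝ) + 1) * ((m : ℝ) + 1) * δ := by
      apply mul_le_mul_of_nonneg_right _ hδ0.le
      nlinarith
    linarith
  have hδ1 : δ ≤ 1 / 1000 := by
    have h3 : 0 ≤ (m : ℝ) * δ := by positivity
    nlinarith
  have hτ1 : τ ≤ 1 / 32 := by
    have h3 : 0 ≤ (m : ℝ) * τ := by positivity
    nlinarith
  have hmτ' : (m : ℝ) * τ ≤ 1 / 32 := by nlinarith
  have hmδ : (m : ℝ) * δ ≤ 1 / 1000 := by nlinarith
  have hc : (⌈τ * n⌉₊ : ℝ) < τ * n + 1 := Nat.ceil_lt_add_one (by positivity)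
  have hf : (⌊δ * n⌋₊ : ℝ) ≤ δ * n := Nat.floor_le (by positivity)
  have hf0 : (0 : ℝ) ≤ (⌊δ * n⌋₊ : ℝ) := Nat.cast_nonneg _
  have hc0 : (0 : ℝ) ≤ (⌈τ * n⌉₊ : ℝ) := Nat.cast_nonneg _
  have hτn : τ * n ≤ 1 / 32 * n := mul_le_mul_of_nonneg_right hτ1 hn0.le
  have hδn : δ * n ≤ 1 / 1000 * n := mul_le_mul_of_nonneg_right hδ1 hn0.le
  have hmτn : (m : ℝ) * τ * n ≤ 1 / 32 * n := mul_le_mul_of_nonneg_right hmτ' hn0.le
  have hmδn : (m : ℝ) * δ * n ≤ 1 / 1000 * n := mul_le_mul_of_nonneg_right hmδ hn0.le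
  have hqmn : (q : ℝ) * m * δ * n ≤ 1 / 1000 * n := mul_le_mul_of_nonneg_right hqm hn0.le
  refine ⟨?_, ?_, ?_, ?_⟩
  · have : (4 * ((⌈τ * n⌉₊ : ℝ) + 3 * (⌊δ * n⌋₊ : ℝ) + 3)) ≤ n := by nlinarith
    exact_mod_cast this
  · have h1 : (m : ℝ) * (⌈τ * n⌉₊ : ℝ) ≤ m * τ * n + m := by nlinarith
    have h2 : (m : ℝ) * (⌊δ * n⌋₊ : ℝ) ≤ m * δ * n := by nlinarith
    have h3 : (q : ℝ) * m * (⌊δ * n⌋₊ : ℝ) ≤ q * m * δ * n := by
      have : 0 ≤ (q : ℝ) * m := by positivity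
      nlinarith
    have : (2 * (m : ℝ) * (2 * ((⌈τ * n⌉₊ : ℝ) + 2 * (⌊δ * n⌋₊ : ℝ) + 1)) + q * m * (⌊δ * n⌋₊ : ℝ) + (⌊δ * n⌋₊ : ℝ) + m) ≤ n := by
      nlinarith
    exact_mod_cast this
  · have : (2 * ((⌊δ * n⌋₊ : ℝ) + 2 * m + K)) ≤ n := by nlinarith
    exact_mod_cast this
  · apply mul_lt_mul_of_pos_right _ hn0
    have h4 : ((m : ℝ) + 1) * δ < ((m : ℝ) + 1) * τ := by rw [hmτ]; linarith
    exact lt_of_mul_lt_mul_left h4 (by positivity)

open Classical in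
/-- the counting at the end -/
theorem upper_count {W : Type} [Fintype W] (q n s : ℕ) (B : Finset W) (c : W → Fin q)
    (X : Fin q → Finset W) (hX : ∀ i, X i ⊆ Finset.univ.filter (fun x => x ∉ B ∧ c x = i))
    (hR : ∀ i, ((Finset.univ.filter (fun x => x ∉ B ∧ c x = i)) \ X i).card ≤ n - 1)
    (hW : Fintype.card W = q * (n - 1) + s) :
    (B ∪ Finset.univ.biUnion X).card =
      s + ∑ i, (n - 1 - ((Finset.univ.filter (fun x => x ∉ B ∧ c x = i)) \ X i).card) := by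
  have h1 : (Finset.univ.filter (fun x => x ∉ B)).card =
      ∑ i : Fin q, (Finset.univ.filter (fun x => x ∉ B ∧ c x = i)).card := by
    rw [Finset.card_eq_sum_card_fiberwise (f := c) (t := Finset.univ) (fun x _ => Finset.mem_univ _)]
    apply Finset.sum_congr rfl
    intro i _
    rw [Finset.filter_filter]
  have h2 : (Finset.univ.filter (fun x => x ∉ B)).card + B.card = Fintype.card W := by
    have := Finset.card_filter_add_card_filter_not (s := (Finset.univ : Finset W)) (fun x => x ∈ B)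
    rw [Finset.filter_mem_eq_inter, Finset.univ_inter, Finset.card_univ] at this
    omega
  have h3 : (Finset.univ.biUnion X).card = ∑ i, (X i).card := by
    apply Finset.card_biUnion
    intro i _ j _ hij
    change Disjoint (X i) (X j)
    rw [Finset.disjoint_left]
    intro x hxi hxj
    have a1 := (Finset.mem_filter.mp (hX i hxi)).2.2
    have a2 := (Finset.mem_filter.mp (hX j hxj)).2.2
    exact hij (a1.symm.trans a2)
  have h4 : (B ∪ Finset.univ.biUnion X).card = B.card + (Finset.univ.biUnion X).card := by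
    apply Finset.card_union_of_disjoint
    rw [Finset.disjoint_left]
    intro x hxB hx
    obtain ⟨i, _, hi⟩ := Finset.mem_biUnion.mp hx
    exact (Finset.mem_filter.mp (hX i hi)).2.1 hxB
  have h5 : ∀ i, (Finset.univ.filter (fun x => x ∉ B ∧ c x = i)).card =
      ((Finset.univ.filter (fun x => x ∉ B ∧ c x = i)) \ X i).card + (X i).card := by
    intro i
    rw [Finset.card_sdiff_add_card_eq_card (hX i)]
  have h6 : ∑ i : Fin q, (Finset.univ.filter (fun x => x ∉ B ∧ c x = i)).card =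
      ∑ i, ((Finset.univ.filter (fun x => x ∉ B ∧ c x = i)) \ X i).card + ∑ i, (X i).card := by
    rw [← Finset.sum_add_distrib]
    exact Finset.sum_congr rfl (fun i _ => h5 i)
  have h7 : ∑ i : Fin q, ((Finset.univ.filter (fun x => x ∉ B ∧ c x = i)) \ X i).card +
      ∑ i, (n - 1 - ((Finset.univ.filter (fun x => x ∉ B ∧ c x = i)) \ X i).card) = q * (n - 1) := by
    rw [← Finset.sum_add_distrib]
    rw [Finset.sum_congr rfl (fun i _ => Nat.add_sub_cancel' (hR i))]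
    simp
  omega

theorem upper_exact (q m s : ℕ) (hq : 1 ≤ q) (hm : 1 ≤ m) (hs : 1 ≤ s) : ∃ n₀ : ℕ, ∀ n : ℕ, n₀ ≤ n →
    ∀ T : SimpleGraph (Fin n), T.IsTree → ∀ (W : Type) [Fintype W] (C : SimpleGraph W),
      Fintype.card W = q * (n - 1) + s → ¬ HasM q m C → ¬ HasS q m s C → T ⊑ Cᶜ := by
  classical
  obtain ⟨τ, hτ⟩ : ∃ τ : ℝ, τ = 1 / (32 * ((m : ℝ) + 1)) := ⟨_, rfl⟩
  have hτ0 : 0 < τ := by rw [hτ]; positivity
  obtain ⟨L₀, δ₁, hδ₁, n₁, hbad⟩ := bad_bound q m s hq hm τ hτ0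
  obtain ⟨L, hL⟩ : ∃ L : ℕ, L = L₀ + q * (2 * m) := ⟨_, rfl⟩
  obtain ⟨δ₂, hδ₂, n₂, hpop⟩ := popular q m s L hq hm ((1 / 2 : ℝ) ^ q) (by positivity)
  obtain ⟨δ, hδd⟩ : ∃ δ : ℝ, δ = min (min δ₁ δ₂) (1 / (1000 * ((q : ℝ) + 1) * ((m : ℝ) + 1))) := ⟨_, rfl⟩
  have hδ0 : 0 < δ := by
    rw [hδd]
    refine lt_min (lt_min hδ₁ hδ₂) (by positivity)
  have hδ1 : δ ≤ δ₁ := by rw [hδd]; exact le_trans (min_le_left _ _) (min_le_left _ _)
  have hδ2 : δ ≤ δ₂ := by rw [hδd]; exact le_trans (min_le_left _ _) (min_le_right _ _)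
  have hδ3 : δ ≤ 1 / (1000 * ((q : ℝ) + 1) * ((m : ℝ) + 1)) := by rw [hδd]; exact min_le_right _ _
  obtain ⟨ε, hε, n₃, hst⟩ := stab q hq m hm δ hδ0
  obtain ⟨K, hK⟩ : ∃ K : ℕ, K = 2 ^ L * (2 * (L + 1)) := ⟨_, rfl⟩
  refine ⟨n₁ + n₂ + n₃ + ⌈(q : ℝ) / ε⌉₊ + (100 * (m + 1) + 6 * L + 8 * K + s), ?_⟩
  intro n hn T hT W _ C hW hM hS
  by_contra hfree
  obtain ⟨hn4, hn5, hn6, hn7⟩ := upper_num q m L K s τ δ hτ hδ0 hδ3 n (by omega)
  obtain ⟨e, he⟩ : ∃ e : ℕ, e = ⌊δ * n⌋₊ := ⟨_, rfl⟩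
  obtain ⟨t, ht⟩ : ∃ t : ℕ, t = ⌈τ * n⌉₊ := ⟨_, rfl⟩
  rw [← he, ← ht] at hn4 hn5
  rw [← he] at hn6
  have hn1 : 1 ≤ n := by omega
  have hnR : (0 : ℝ) < n := by exact_mod_cast hn1
  have hWn : n ≤ Fintype.card W := by
    rw [hW]
    have : 1 * (n - 1) ≤ q * (n - 1) := Nat.mul_le_mul_right _ hq
    omega
  have hWq : Fintype.card W ≤ (q + 1) * n := by
    rw [hW]
    have h1 : q * (n - 1) ≤ q * n := Nat.mul_le_mul_left _ (Nat.sub_le _ _)
    have h2 : (q + 1) * n = q * n + n := by ring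
    omega
  -- stability
  have hsz0 : ((q : ℝ) - ε) * n ≤ ((Finset.univ : Finset W).card : ℝ) := by
    rw [Finset.card_univ, hW]
    push_cast [Nat.cast_sub hn1]
    have h1 : (q : ℝ) / ε ≤ n := by
      have h2 : ((⌈(q : ℝ) / ε⌉₊ : ℕ) : ℝ) ≤ n := by exact_mod_cast (by omega : ⌈(q : ℝ) / ε⌉₊ ≤ n)
      exact le_trans (Nat.le_ceil _) h2
    have h3 : (q : ℝ) ≤ ε * n := by
      rw [div_le_iff₀ hε] at h1
      linarith
    have hs0 : (0 : ℝ) ≤ s := Nat.cast_nonneg s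
    nlinarith
  obtain ⟨P, -, hdis, hsz, hszn, hin, hcr⟩ := hst n (by omega) T hT W C Finset.univ hfree hsz0
    (fun h => hM (hasM_of_hasK C q m hq h))
  have hPe : ∀ i, n ≤ (P i).card + e := by
    intro i
    by_contra hcon
    have h1 : (P i).card + e + 1 ≤ n := by omega
    have h2 : ((P i).card : ℝ) + e + 1 ≤ n := by exact_mod_cast h1
    have h3 : δ * n < (e : ℝ) + 1 := by rw [he]; exact Nat.lt_floor_add_one _
    have h4 := hsz i
    nlinarith
  have hine : ∀ i, ∀ x ∈ P i, dg C x (P i) ≤ e := fun i x hx => by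
    rw [he]; exact Nat.le_floor (hin i x hx)
  have hcre : ∀ i j, i ≠ j → ∀ x ∈ P i, nd C x (P j) ≤ e := fun i j hij x hx => by
    rw [he]; exact Nat.le_floor (hcr i j hij x hx)
  -- bad vertices
  obtain ⟨B, hBd⟩ : ∃ B : Finset W, B = Finset.univ.filter (fun x => ∀ i, τ * n ≤ (dg C x (P i) : ℝ)) := ⟨_, rfl⟩
  have hBc : B.card ≤ L₀ := by
    apply hbad n (by omega) W C P hWn hWq hszn _ hS B
    · intro x hx
      rw [hBd] at hx
      exact (Finset.mem_filter.mp hx).2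
    · intro i j hij x hx
      exact le_trans (hcr i j hij x hx) (mul_le_mul_of_nonneg_right hδ1 hnR.le)
  have hBP : ∀ i, ∀ x ∈ P i, x ∉ B := by
    intro i x hx hxB
    rw [hBd] at hxB
    have h1 := (Finset.mem_filter.mp hxB).2 i
    have h2 := hin i x hx
    linarith
  have hexc : ∀ x, ∃ c : Fin q, (∀ i, x ∈ P i → i = c) ∧ (x ∉ B → (dg C x (P c) : ℝ) < τ * n) := by
    intro x
    by_cases h : ∃ i, x ∈ P i
    · obtain ⟨i, hi⟩ := h
      refine ⟨i, fun j hj => ?_, fun _ => lt_of_le_of_lt (hin i x hi) hn7⟩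
      by_contra hji
      exact Finset.disjoint_left.mp (hdis j i hji) hj hi
    · push Not at h
      by_cases hxB : x ∈ B
      · exact ⟨⟨0, hq⟩, fun i hi => absurd hi (h i), fun hx => absurd hxB hx⟩
      · have : ∃ i, (dg C x (P i) : ℝ) < τ * n := by
          by_contra hcon
          push Not at hcon
          exact hxB (by rw [hBd]; exact Finset.mem_filter.mpr ⟨Finset.mem_univ _, hcon⟩)
        obtain ⟨i, hi⟩ := this
        exact ⟨i, fun j hj => absurd hj (h j), fun _ => hi⟩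
  choose c hc1 hc2 using hexc
  obtain ⟨V, hV⟩ : ∃ V : Fin q → Finset W, V = fun i => Finset.univ.filter (fun x => x ∉ B ∧ c x = i) := ⟨_, rfl⟩
  have hPV : ∀ i, P i ⊆ V i := by
    intro i x hx
    rw [hV]
    exact Finset.mem_filter.mpr ⟨Finset.mem_univ _, hBP i x hx, (hc1 x i hx).symm⟩
  have hVcr : ∀ i, ∀ y ∈ V i, ∀ j, j ≠ i → nd C y (P j) ≤ 2 * (t + 2 * e + 1) := by
    intro i y hy j hji
    rw [hV] at hy
    obtain ⟨-, hyB, hyc⟩ := Finset.mem_filter.mp hy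
    by_cases h : ∃ l, y ∈ P l
    · obtain ⟨l, hl⟩ := h
      have hli : l = i := (hc1 y l hl).trans hyc
      have h1 := hcre l j (by rw [hli]; exact hji.symm) y hl
      omega
    · push Not at h
      have h1 := hc2 y hyB
      rw [hyc] at h1
      have h2 : dg C y (P i) < t := by
        have : (dg C y (P i) : ℝ) < t := lt_of_lt_of_le h1 (by rw [ht]; exact Nat.le_ceil _)
        exact_mod_cast this
      exact asg_one T hT C hfree (P i) (P j) (hdis i j hji.symm) e t (hPe i) (hPe j) (hine i) (hine j) hn4 y (h i) (h j) h2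
  -- covers
  have hcov : ∀ i, ∃ X : Finset W, X ⊆ V i ∧ X.card ≤ 2 * m ∧
      ∀ x ∈ V i, x ∉ X → ∀ y ∈ V i, y ∉ X → ¬ C.Adj x y := fun i =>
    cover_of_noM C q m n e (2 * (t + 2 * e + 1)) P i (V i) hPe hcre (hVcr i) hn5 hM
  choose X hXV hXc hXind using hcov
  have hRblue : ∀ i, ∀ x ∈ V i \ X i, ∀ y ∈ V i \ X i, ¬ C.Adj x y := by
    intro i x hx y hy
    rw [Finset.mem_sdiff] at hx hy
    exact hXind i x hx.1 hx.2 y hy.1 hy.2
  have hRc : ∀ i, (V i \ X i).card ≤ n - 1 := by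
    intro i
    by_contra hcon
    exact hfree (emb_clique T C (V i \ X i) (hRblue i) (by omega))
  obtain ⟨E, hE⟩ : ∃ E : Finset W, E = B ∪ Finset.univ.biUnion X := ⟨_, rfl⟩
  have hEc : E.card ≤ L := by
    rw [hE, hL]
    refine le_trans (Finset.card_union_le _ _) (Nat.add_le_add hBc ?_)
    refine le_trans Finset.card_biUnion_le ?_
    refine le_trans (Finset.sum_le_sum (fun i _ => hXc i)) ?_
    simp
  have hcount : E.card = s + ∑ i, (n - 1 - (V i \ X i).card) := by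
    have := upper_count q n s B c X (fun i => by have := hXV i; rw [hV] at this; exact this)
      (fun i => by have := hRc i; rw [hV] at this; exact this) hW
    rw [hE, this, hV]
  have hRE : ∀ i, Disjoint (V i \ X i) E := by
    intro i
    rw [Finset.disjoint_left]
    intro x hx hxE
    rw [Finset.mem_sdiff] at hx
    rw [hE, Finset.mem_union, Finset.mem_biUnion] at hxE
    have hxV := hx.1
    rw [hV] at hxV
    obtain ⟨-, hxB, hxc⟩ := Finset.mem_filter.mp hxV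
    rcases hxE with h | ⟨j, -, hj⟩
    · exact hxB h
    · have hj2 := hXV j hj
      rw [hV] at hj2
      have hjc := (Finset.mem_filter.mp hj2).2.2
      have : i = j := hxc.symm.trans hjc
      subst this
      exact hx.2 hj
  have hrich : ∀ i, ((V i \ X i).filter (fun z => (n - 1 - (V i \ X i).card) + 1 ≤ nd C z E)).card ≤ K := by
    intro i
    rw [hK]
    have := few_rich T hT C hfree (V i \ X i) E (n - 1 - (V i \ X i).card) L (hRE i) (hRblue i)
      (by have := hRc i; omega) hEc (by omega)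
    convert this
  -- the tuples
  obtain ⟨Q, hQ⟩ : ∃ Q : Fin q → Finset W, Q = fun i => (P i \ X i) \
      (V i \ X i).filter (fun z => (n - 1 - (V i \ X i).card) + 1 ≤ nd C z E) := ⟨_, rfl⟩
  have hQc : ∀ i, (n : ℝ) / 2 ≤ ((Q i).card : ℝ) := by
    intro i
    have h1 : (P i).card ≤ (Q i).card + K + 2 * m := by
      have a1 : (P i \ X i).card ≤ (Q i).card + K := by
        have := Finset.le_card_sdiff ((V i \ X i).filter (fun z => (n - 1 - (V i \ X i).card) + 1 ≤ nd C z E)) (P i \ X i)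
        have b := hrich i
        rw [hQ]
        simp only
        omega
      have a2 := Finset.le_card_sdiff (X i) (P i)
      have b2 := hXc i
      omega
    have h2 := hPe i
    have h3 : n ≤ 2 * (Q i).card := by omega
    have h4 : (n : ℝ) ≤ 2 * (Q i).card := by exact_mod_cast h3
    linarith
  have hY : ∀ z ∈ ((Fintype.piFinset Q : Finset (Fin q → W)) : Set (Fin q → W)), (∀ i, z i ∈ P i) ∧
      s ≤ (E.filter (fun x => ∀ i, C.Adj x (z i))).card := by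
    intro z hz
    rw [Finset.mem_coe, Fintype.mem_piFinset] at hz
    have hz1 : ∀ i, z i ∈ P i ∧ z i ∉ X i ∧
        z i ∉ (V i \ X i).filter (fun z => (n - 1 - (V i \ X i).card) + 1 ≤ nd C z E) := by
      intro i
      have := hz i
      rw [hQ] at this
      simp only [Finset.mem_sdiff] at this
      exact ⟨this.1.1, this.1.2, by simpa only [Finset.mem_sdiff] using this.2⟩
    refine ⟨fun i => (hz1 i).1, ?_⟩
    have hnd : ∀ i, nd C (z i) E ≤ n - 1 - (V i \ X i).card := by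
      intro i
      by_contra hcon
      apply (hz1 i).2.2
      rw [Finset.mem_filter]
      exact ⟨Finset.mem_sdiff.mpr ⟨hPV i (hz1 i).1, (hz1 i).2.1⟩, by omega⟩
    have hsub : E ⊆ (E.filter (fun x => ∀ i, C.Adj x (z i))) ∪
        Finset.univ.biUnion (fun i => E.filter (fun y => ¬ C.Adj (z i) y)) := by
      intro x hx
      rw [Finset.mem_union, Finset.mem_filter, Finset.mem_biUnion]
      by_cases h : ∀ i, C.Adj x (z i)
      · exact Or.inl ⟨hx, h⟩
      · push Not at h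
        obtain ⟨i, hi⟩ := h
        exact Or.inr ⟨i, Finset.mem_univ _, Finset.mem_filter.mpr ⟨hx, fun h => hi h.symm⟩⟩
    have h1 := Finset.card_le_card hsub
    have h2 := le_trans h1 (Finset.card_union_le _ _)
    have h3 : (Finset.univ.biUnion (fun i => E.filter (fun y => ¬ C.Adj (z i) y))).card ≤
        ∑ i, (n - 1 - (V i \ X i).card) := by
      refine le_trans Finset.card_biUnion_le (Finset.sum_le_sum (fun i _ => ?_))
      have := hnd i
      unfold nd at this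
      convert this
    omega
  have hYc : (1 / 2 : ℝ) ^ q * (n : ℝ) ^ q ≤
      ((((Fintype.piFinset Q : Finset (Fin q → W)) : Set (Fin q → W)).ncard : ℕ) : ℝ) := by
    rw [Set.ncard_coe_finset, Fintype.card_piFinset]
    push_cast
    rw [← mul_pow]
    calc (1 / 2 * (n : ℝ)) ^ q = ∏ _i : Fin q, (1 / 2 * (n : ℝ)) := by simp
      _ ≤ ∏ i : Fin q, ((Q i).card : ℝ) := by
        apply Finset.prod_le_prod
        · intro i _; positivity
        · intro i _
          have := hQc i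
          linarith
  refine hS (hpop n (by omega) W C P E _ hWn hWq hszn (fun i j hij x hx =>
    le_trans (hcr i j hij x hx) (mul_le_mul_of_nonneg_right hδ2 hnR.le)) hEc ?_ hYc)
  intro z hz
  obtain ⟨h1, h2⟩ := hY z hz
  refine ⟨h1, ?_⟩
  convert h2

end H57.SD
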